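import Pool.Agent.Helper10.PL.Pol

/-!
# Plane curves: coefficient vectors
-/

universe u v

namespace Pool.Agent.PC

open MvPolynomial

/-- the exponent of `mono R q` -/
noncomputable abbrev mexp {n : ℕ} (q : Mon n) : Fin 2 →₀ ℕ := expo q

lemma mexp_zero {n : ℕ} (q : Mon n) : mexp q 0 = q.1.1 := expo_zero q

lemma mexp_one {n : ℕ} (q : Mon n) : mexp q 1 = q.1.2 := expo_one q

lemma mexp_injective {n : ℕ} : Function.Injective (mexp : Mon n → Fin 2 →₀ ℕ) := expo_injective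

lemma degree_eq (s : Fin 2 →₀ ℕ) : s.degree = s 0 + s 1 := by
  rw [Finsupp.degree_eq_sum, Fin.sum_univ_two]

lemma exists_mexp {n : ℕ} {s : Fin 2 →₀ ℕ} (hs : s 0 + s 1 ≤ n) : ∃ q : Mon n, mexp q = s := by
  refine ⟨⟨(⟨s 0, by omega⟩, ⟨s 1, by omega⟩), hs⟩, ?_⟩
  ext i
  fin_cases i
  · exact mexp_zero _
  · exact mexp_one _

variable {R : Type u} [CommRing R]

lemma totalDegree_le_iff {P : MvPolynomial (Fin 2) R} {n : ℕ} :
    P.totalDegree ≤ n ↔ ∀ s ∈ P.support, s 0 + s 1 ≤ n := by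
  have h : ∀ s : Fin 2 →₀ ℕ, (s.sum fun _ e => e) = s 0 + s 1 := by
    intro s
    rw [Finsupp.sum_fintype _ _ (fun _ => rfl), Fin.sum_univ_two]
  constructor
  · intro h1 s hs
    rw [← h]
    exact (le_totalDegree hs).trans h1
  · intro h1
    rw [totalDegree, Finset.sup_le_iff]
    intro s hs
    rw [h]
    exact h1 s hs

lemma pol_eq {n : ℕ} (g : Mon n → R) : pol g = ∑ q, monomial (mexp q) (g q) := by
  unfold pol
  refine Finset.sum_congr rfl fun q _ => ?_
  rw [mono_eq, C_mul_monomial, mul_one]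

lemma coeff_pol_of {n : ℕ} (g : Mon n → R) {s : Fin 2 →₀ ℕ} (hs : n < s 0 + s 1) :
    (pol g).coeff s = 0 := by
  classical
  rw [pol_eq, coeff_sum]
  refine Finset.sum_eq_zero fun q _ => ?_
  rw [coeff_monomial, if_neg]
  rintro rfl
  rw [mexp_zero, mexp_one] at hs
  exact absurd q.2 (not_le.2 hs)

lemma pol_coeff {n : ℕ} {P : MvPolynomial (Fin 2) R} (hP : P.totalDegree ≤ n) :
    pol (fun q : Mon n => P.coeff (mexp q)) = P := pol_cf hP

lemma exists_pol {n : ℕ} {P : MvPolynomial (Fin 2) R} (hP : P.totalDegree ≤ n) :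
    ∃ g : Mon n → R, pol g = P := ⟨_, pol_coeff hP⟩

lemma map_mono {R' : Type v} [CommRing R'] (φ : R →+* R') {n : ℕ} (q : Mon n) :
    map φ (mono R q) = mono R' q := by
  rw [mono_eq, mono_eq, map_monomial, map_one]

end Pool.Agent.PC
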