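import Mathlib

/-!
# Exchange of finite transcendence bases
-/

universe u

namespace Pool.Agent.PC

open Cardinal

open scoped IntermediateField.algebraAdjoinAdjoin in
theorem algInd_of_exchange {κ L : Type u} [Field κ] [Field L] [Algebra κ L] {V ι : Type}
    [Fintype V] [Fintype ι] (hcard : Fintype.card ι ≤ Fintype.card V) {g : V → L}
    (hg : IsTranscendenceBasis κ g) {ξ : ι → L}
    (h : ∀ v, IsAlgebraic (IntermediateField.adjoin κ (Set.range ξ)) (g v)) :
    AlgebraicIndependent κ ξ := by
  have h1 : Algebra.IsAlgebraic (IntermediateField.adjoin κ (Set.range g)) L :=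
    hg.isAlgebraic_field
  let D := algebraicClosure (IntermediateField.adjoin κ (Set.range ξ)) L
  have h2 : IntermediateField.adjoin κ (Set.range g) ≤ D.restrictScalars κ := by
    rw [IntermediateField.adjoin_le_iff]
    rintro _ ⟨v, rfl⟩
    exact mem_algebraicClosure_iff.2 (h v)
  have h3 : Algebra.IsAlgebraic (IntermediateField.adjoin κ (Set.range ξ)) L := by
    constructor
    intro y
    have h4 : IsAlgebraic (IntermediateField.adjoin κ (Set.range g)) y := h1.isAlgebraic y
    have h5 : IsAlgebraic D y := by
      obtain ⟨F, hF0, hF⟩ := h4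
      let j : IntermediateField.adjoin κ (Set.range g) →+* D :=
        (IntermediateField.inclusion h2).toRingHom
      refine ⟨F.map j, (Polynomial.map_ne_zero_iff j.injective).2 hF0, ?_⟩
      rw [Polynomial.aeval_def, Polynomial.eval₂_map]
      exact hF
    exact (isIntegral_trans (R := IntermediateField.adjoin κ (Set.range ξ)) (A := D) _
      h5.isIntegral).isAlgebraic
  have h6 : Algebra.IsAlgebraic (Algebra.adjoin κ (Set.range ξ)) L :=
    Algebra.IsAlgebraic.trans _ (IntermediateField.adjoin κ (Set.range ξ)) _
  have h7 := hg.lift_cardinalMk_eq_trdeg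
  refine (Algebra.IsAlgebraic.isTranscendenceBasis_of_lift_le_trdeg_of_finite κ ξ ?_).1
  rw [← h7, Cardinal.lift_le, Cardinal.mk_fintype, Cardinal.mk_fintype]
  exact_mod_cast hcard

end Pool.Agent.PC
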