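import Pool.Agent.Helper37.UL.Defs
import Pool.Agent.Helper37.TH.Split

/-!
# Plane curves: polynomials in two variables of bounded degree

`Mon n` is the set of the exponents `(i, j)`, `i + j ≤ n`; a polynomial of degree at most `n` in
`x = X 0`, `y = X 1` is given by its vector of coefficients `Mon n → R`.
-/

universe u v

namespace Pool.Agent.PC

open MvPolynomial

/-- exponents `(i, j)` with `i + j ≤ n` -/
abbrev Mon (n : ℕ) : Type := {q : Fin (n + 1) × Fin (n + 1) // (q.1 : ℕ) + (q.2 : ℕ) ≤ n}

/-- the monomial `x ^ i y ^ j` -/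
noncomputable def mono (R : Type u) [CommSemiring R] {n : ℕ} (q : Mon n) : MvPolynomial (Fin 2) R :=
  X 0 ^ (q.1.1 : ℕ) * X 1 ^ (q.1.2 : ℕ)

/-- the polynomial with the coefficient vector `g` -/
noncomputable def pol {R : Type u} [CommSemiring R] {n : ℕ} (g : Mon n → R) :
    MvPolynomial (Fin 2) R :=
  ∑ q, C (g q) * mono R q

/-- the polynomials `G`, `G'`, `f` of degrees `n`, `n`, `d` have no common zero in the projective plane:
all monomials of degree at most `M` are combinations with the obvious degrees. -/
def Cop {K : Type u} [Field K] {n d : ℕ} (G G' : Mon n → K) (f : Mon d → K) (M : ℕ) : Prop :=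
  ∀ q : Mon M, ∃ (A B : Mon (M - n) → K) (D : Mon (M - d) → K),
    pol A * pol G + pol B * pol G' + pol D * pol f = mono K q

/-- the polynomial in `x` with coefficients `c` -/
noncomputable def polX {R : Type u} [CommSemiring R] {n : ℕ} (c : Fin (n + 1) → R) :
    MvPolynomial (Fin 2) R :=
  ∑ i, C (c i) * X 0 ^ (i : ℕ)

end Pool.Agent.PC
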