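import Pool.Agent.Helper97.PLN.Pui

/-!
# Iterated Puiseux series with commuting automorphisms
-/

universe u

namespace Pool.Agent.PC

open HahnSeries

/-- coefficientwise ring homomorphisms -/
noncomputable def hmapHom {κ κ' : Type u} [Field κ] [Field κ'] (f : κ →+* κ') :
    HahnSeries ℚ κ →+* HahnSeries ℚ κ' where
  toFun x := x.map f
  map_one' := by
    ext a
    simp only [HahnSeries.map_coeff, HahnSeries.coeff_one]
    split_ifs <;> simp
  map_mul' x y := HahnSeries.map_mul (f : κ →ₙ+* κ')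
  map_zero' := by ext; simp
  map_add' x y := by ext; simp

lemma hmapHom_coeff {κ κ' : Type u} [Field κ] [Field κ'] (f : κ →+* κ') (x : HahnSeries ℚ κ)
    (a : ℚ) : (hmapHom f x).coeff a = f (x.coeff a) := rfl

/-- the embedding `t ↦ t` of the Laurent series -/
noncomputable def laur (κ : Type u) [Field κ] : HahnSeries ℤ κ →+* HahnSeries ℚ κ :=
  HahnSeries.embDomainRingHom (Int.castAddHom ℚ) Int.cast_injective fun _ _ => Int.cast_le

lemma laur_coeff {κ : Type u} [Field κ] (x : HahnSeries ℤ κ) (n : ℤ) :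
    (laur κ x).coeff (n : ℚ) = x.coeff n := by
  exact embDomain_coeff (f := ⟨⟨(Int.castAddHom ℚ), Int.cast_injective⟩, Int.cast_le⟩)

lemma laur_coeff_ne {κ : Type u} [Field κ] {x : HahnSeries ℤ κ} {a : ℚ}
    (ha : (laur κ x).coeff a ≠ 0) : ∃ n : ℤ, a = n := by
  have h1 : a ∈ (laur κ x).support := ha
  obtain ⟨n, -, hn⟩ := support_embDomain_subset h1
  exact ⟨n, hn.symm⟩

lemma laur_C {κ : Type u} [Field κ] (c : κ) : laur κ (C c) = C c := embDomainRingHom_C

lemma laur_single {κ : Type u} [Field κ] (c : κ) : laur κ (single 1 c) = single 1 c := by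
  have h1 : laur κ (single 1 c) = single ((Int.castAddHom ℚ) 1) c := embDomain_single
  rw [h1]
  simp

/-- an automorphism of Hahn series which preserves supports restricts to Puiseux series -/
theorem exists_restr {κ : Type u} [Field κ] {P : Subfield (HahnSeries ℚ κ)}
    (hP : ∀ x : HahnSeries ℚ κ, x ∈ P ↔ ∃ N : ℕ, 0 < N ∧ ∀ a : ℚ, x.coeff a ≠ 0 →
        ∃ b : ℤ, a * N = b) (R : HahnSeries ℚ κ ≃+* HahnSeries ℚ κ)
    (hR : ∀ x a, (R x).coeff a ≠ 0 ↔ x.coeff a ≠ 0) :
    ∃ R' : P ≃+* P, ∀ x : P, ((R' x : P) : HahnSeries ℚ κ) = R x := by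
  have h1 : ∀ x, R x ∈ P ↔ x ∈ P := by
    intro x
    rw [hP, hP]
    refine exists_congr fun N => and_congr_right fun _ => ?_
    refine forall_congr' fun a => ?_
    rw [hR]
  have h2 : ∀ x, R.symm x ∈ P ↔ x ∈ P := by
    intro x
    rw [← h1, R.apply_symm_apply]
  exact ⟨{ toFun := fun x => ⟨R x, (h1 x).2 x.2⟩
           invFun := fun x => ⟨R.symm x, (h2 x).2 x.2⟩
           left_inv := fun x => Subtype.ext (R.symm_apply_apply _)
           right_inv := fun x => Subtype.ext (R.apply_symm_apply _)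
           map_mul' := fun a b => Subtype.ext (map_mul R _ _)
           map_add' := fun a b => Subtype.ext (map_add R _ _) }, fun x => rfl⟩

open Polynomial in
/-- elements algebraic over the image of an algebraically closed field -/
theorem mem_range_of_alg {K L : Type u} [Field K] [IsAlgClosed K] [Field L] (f : K →+* L) {y : L}
    (hy : IsAlgebraic f.fieldRange y) : y ∈ f.fieldRange := by
  let e : K ≃+* f.fieldRange := RingHom.rangeRestrictFieldEquiv f
  obtain ⟨q, hq0, hq⟩ := hy
  let q' : K[X] := q.map (e.symm : f.fieldRange →+* K)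
  have hq'0 : q' ≠ 0 := (Polynomial.map_ne_zero_iff e.symm.injective).2 hq0
  have hcomp : f.comp (e.symm : f.fieldRange →+* K) = f.fieldRange.subtype := by
    refine RingHom.ext fun z => ?_
    change f (e.symm z) = z
    have h1 := e.apply_symm_apply z
    exact congrArg Subtype.val h1
  have hev : eval₂ f y q' = 0 := by
    rw [eval₂_map, hcomp]
    exact hq
  have hs := (IsAlgClosed.splits q').eq_prod_roots
  rw [hs, eval₂_mul, eval₂_C, eval₂_multiset_prod, Multiset.map_map, mul_eq_zero] at hev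
  rcases hev with h | h
  · exact absurd ((map_eq_zero f).1 h) (leadingCoeff_ne_zero.2 hq'0)
  · rw [Multiset.prod_eq_zero_iff, Multiset.mem_map] at h
    obtain ⟨a, -, ha⟩ := h
    refine ⟨a, ?_⟩
    simp only [Function.comp_apply, eval₂_sub, eval₂_X, eval₂_C] at ha
    exact (sub_eq_zero.1 ha).symm

/-- **HAHN.**  The field `A` of Puiseux series over `κ₁` in `t`, the field `S₁` of Puiseux series over
`A` in `ε`, the twist `τ` and the coefficientwise automorphisms. -/
theorem exists_hahn (κ κ₁ : Type u) [Field κ] [Field κ₁] [Algebra κ κ₁] [IsAlgClosed κ]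
    [IsAlgClosed κ₁] [CharZero κ] {p : ℕ} (hp : p.Prime) :
    ∃ (A S₁ : Type u) (_ : Field A) (_ : Field S₁) (cA : κ₁ →+* A) (lA : HahnSeries ℤ κ →+* A)
      (ψ : PowerSeries A →+* S₁) (τA : A ≃+* A) (τS : S₁ ≃+* S₁),
      IsAlgClosed S₁ ∧ Function.Injective ψ ∧ (∀ c : κ, lA (C c) = cA (algebraMap κ κ₁ c)) ∧
      (∀ {I : Type} [Fintype I] (l : I → HahnSeries ℤ κ) (m : I → κ₁), LinearIndependent κ m →
        ∑ i, lA (l i) * cA (m i) = 0 → ∀ i, l i = 0) ∧
      (∀ c, τA (cA c) = cA c) ∧ (∀ l, τA (lA l) = lA l) ∧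
      (∃ α : A, α ^ p = lA (single 1 1) ∧ τA α ≠ α) ∧
      (∀ z, τS (ψ z) = ψ (PowerSeries.map (τA : A →+* A) z)) ∧
      (∃ Q : Subfield S₁, (∀ z : PowerSeries κ₁, ψ (PowerSeries.map cA z) ∈ Q) ∧
        ∀ y, IsAlgebraic Q y → τS y = y) ∧
      ∀ ρ : κ₁ ≃+* κ₁, (∀ c : κ, ρ (algebraMap κ κ₁ c) = algebraMap κ κ₁ c) →
        ∃ (ρA : A ≃+* A) (ρS : S₁ ≃+* S₁), (∀ c, ρA (cA c) = cA (ρ c)) ∧
          (∀ l, ρA (lA l) = lA l) ∧
          (∀ z, ρS (ψ z) = ψ (PowerSeries.map (ρA : A →+* A) z)) ∧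
          ∀ y, τS (ρS y) = ρS (τS y) := by
  classical
  have hκ₁0 : CharZero κ₁ := charZero_of_injective_algebraMap (algebraMap κ κ₁).injective
  obtain ⟨P, hP, hPcl⟩ := exists_puis κ₁
  have hPac : IsAlgClosed P := hPcl inferInstance inferInstance
  have hH0 : CharZero (HahnSeries ℚ κ₁) := charZero_of_injective_ringHom
    (f := (C : κ₁ →+* HahnSeries ℚ κ₁)) C_injective
  have hP0 : CharZero P := inferInstance
  obtain ⟨P', hP', hPcl'⟩ := exists_puis P
  have hPac' : IsAlgClosed P' := hPcl' hPac hP0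
  -- integral exponents
  have hint : ∀ x : HahnSeries ℚ κ₁, (∀ a, x.coeff a ≠ 0 → ∃ n : ℤ, a = n) → x ∈ P := by
    intro x hx
    rw [hP]
    refine ⟨1, one_pos, fun a ha => ?_⟩
    obtain ⟨n, rfl⟩ := hx a ha
    exact ⟨n, by simp⟩
  have hint' : ∀ x : HahnSeries ℚ P, (∀ a, x.coeff a ≠ 0 → ∃ n : ℤ, a = n) → x ∈ P' := by
    intro x hx
    rw [hP']
    refine ⟨1, one_pos, fun a ha => ?_⟩
    obtain ⟨n, rfl⟩ := hx a ha
    exact ⟨n, by simp⟩
  have hCcoeff : ∀ {K : Type u} [Field K] (c : K) (a : ℚ), (C c : HahnSeries ℚ K).coeff a ≠ 0 →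
      ∃ n : ℤ, a = n := by
    intro K _ c a ha
    refine ⟨0, ?_⟩
    by_contra h
    apply ha
    rw [C_apply, coeff_single_of_ne]
    simpa using h
  let cA : κ₁ →+* P := (C : κ₁ →+* HahnSeries ℚ κ₁).codRestrict P.toSubring
    (fun c => hint _ (hCcoeff c))
  have hcA : ∀ c, ((cA c : P) : HahnSeries ℚ κ₁) = C c := fun _ => rfl
  let lA : HahnSeries ℤ κ →+* P := ((hmapHom (algebraMap κ κ₁)).comp (laur κ)).codRestrict
    P.toSubring (fun l => hint _ (fun a ha => by
      change algebraMap κ κ₁ ((laur κ l).coeff a) ≠ 0 at ha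
      exact laur_coeff_ne (fun h => ha (by rw [h, map_zero]))))
  have hlA : ∀ l a, ((lA l : P) : HahnSeries ℚ κ₁).coeff a =
      algebraMap κ κ₁ ((laur κ l).coeff a) := fun _ _ => rfl
  have hlAne : ∀ l a, ((lA l : P) : HahnSeries ℚ κ₁).coeff a ≠ 0 → ∃ n : ℤ, a = n := by
    intro l a ha
    rw [hlA] at ha
    exact laur_coeff_ne (fun h => ha (by rw [h, map_zero]))
  let ψ : PowerSeries P →+* P' := (ofPowerSeries ℚ P).codRestrict P'.toSubring
    (fun z => hint' _ (fun a ha => by
      have h1 : a ∈ (ofPowerSeries ℚ P z).support := ha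
      obtain ⟨n, -, hn⟩ := support_embDomain_subset h1
      exact ⟨n, by rw [← hn]; simp⟩))
  have hψ : ∀ z, ((ψ z : P') : HahnSeries ℚ P) = ofPowerSeries ℚ P z := fun _ => rfl
  have hofne : ∀ (z : PowerSeries P) (a : ℚ), (ofPowerSeries ℚ P z).coeff a ≠ 0 →
      ∃ n : ℕ, a = n := by
    intro z a ha
    have h1 : a ∈ (ofPowerSeries ℚ P z).support := ha
    obtain ⟨n, -, hn⟩ := support_embDomain_subset h1
    exact ⟨n, by rw [← hn]; simp⟩
  -- coefficientwise automorphisms commute with the embedding of power series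
  have hofmap : ∀ (f : P →+* P) (z : PowerSeries P) (a : ℚ),
      (ofPowerSeries ℚ P (PowerSeries.map f z)).coeff a = f ((ofPowerSeries ℚ P z).coeff a) := by
    intro f z a
    by_cases ha : ∃ n : ℕ, a = n
    · obtain ⟨n, rfl⟩ := ha
      rw [ofPowerSeries_apply_coeff, ofPowerSeries_apply_coeff, PowerSeries.coeff_map]
    · have h1 : (ofPowerSeries ℚ P (PowerSeries.map f z)).coeff a = 0 := by
        by_contra h
        exact ha (hofne _ _ h)
      have h2 : (ofPowerSeries ℚ P z).coeff a = 0 := by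
        by_contra h
        exact ha (hofne _ _ h)
      rw [h1, h2, map_zero]
  -- the twist
  obtain ⟨χ, hχ0, hχadd, hχ1, hχp, hχN⟩ := exists_chi (κ := κ) hp
  obtain ⟨Rt, hRt⟩ := exists_twist (κ := κ₁) (fun a => algebraMap κ κ₁ (χ a))
    (by rw [hχ0, map_one]) (fun a b => by rw [hχadd, map_mul])
  have hχne : ∀ a, algebraMap κ κ₁ (χ a) ≠ 0 := by
    intro a h
    have h1 := hχadd a (-a)
    rw [add_neg_cancel, hχ0] at h1
    rw [map_eq_zero] at h
    rw [h, zero_mul] at h1
    exact one_ne_zero h1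
  have hχint : ∀ n : ℤ, χ n = 1 := by
    intro n
    induction n using Int.induction_on with
    | zero => simpa using hχ0
    | succ n ih =>
      have h1 : (((n : ℤ) + 1 : ℤ) : ℚ) = ((n : ℤ) : ℚ) + 1 := by push_cast; ring
      rw [h1, hχadd, ih, hχ1, one_mul]
    | pred n ih =>
      have h1 : (((-(n : ℤ)) : ℤ) : ℚ) = (((-(n : ℤ) - 1 : ℤ)) : ℚ) + 1 := by push_cast; ring
      have h2 := hχadd (((-(n : ℤ) - 1 : ℤ)) : ℚ) 1
      rw [← h1, ih, hχ1, mul_one] at h2
      exact h2.symm
  obtain ⟨τA, hτA⟩ := exists_restr hP Rt (fun x a => by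
    rw [hRt]
    exact ⟨fun h h0 => h (by rw [h0, mul_zero]), fun h => mul_ne_zero (hχne a) h⟩)
  obtain ⟨Rτ, hRτ⟩ := exists_hmap τA
  obtain ⟨τS, hτS⟩ := exists_restr hP' Rτ (fun x a => by
    rw [hRτ]
    exact (map_ne_zero_iff _ τA.injective))
  -- fixed elements
  have hτc : ∀ c, τA (cA c) = cA c := by
    intro c
    apply Subtype.ext
    rw [hτA]
    ext a
    rw [hRt, hcA]
    by_cases ha : a = 0
    · rw [ha, hχ0, map_one, one_mul]
    · rw [C_apply, coeff_single_of_ne ha, mul_zero]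
  have hτl : ∀ l, τA (lA l) = lA l := by
    intro l
    apply Subtype.ext
    rw [hτA]
    ext a
    rw [hRt]
    by_cases ha : ((lA l : P) : HahnSeries ℚ κ₁).coeff a = 0
    · rw [ha, mul_zero]
    · obtain ⟨n, rfl⟩ := hlAne l a ha
      rw [hχint, map_one, one_mul]
  refine ⟨P, P', inferInstance, inferInstance, cA, lA, ψ, τA, τS, hPac', ?_, ?_, ?_, hτc, hτl, ?_,
    ?_, ?_, ?_⟩
  · intro z z' hz
    exact ofPowerSeries_injective (congrArg (fun y : P' => (y : HahnSeries ℚ P)) hz)
  · intro c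
    apply Subtype.ext
    change hmapHom (algebraMap κ κ₁) (laur κ (C c)) = C (algebraMap κ κ₁ c)
    rw [laur_C]
    ext a
    rw [hmapHom_coeff]
    by_cases ha : a = 0
    · rw [ha, C_apply, C_apply, coeff_single_same, coeff_single_same]
    · rw [C_apply, C_apply, coeff_single_of_ne ha, coeff_single_of_ne ha, map_zero]
  · intro I _ l m hm hsum i
    ext n
    have h1 : ∑ i, (l i).coeff n • m i = 0 := by
      have h2 := congrArg (fun y : P => (y : HahnSeries ℚ κ₁).coeff (n : ℚ)) hsum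
      simp only [AddSubmonoidClass.coe_finsetSum] at h2
      rw [HahnSeries.coeff_sum] at h2
      simp only [ZeroMemClass.coe_zero, HahnSeries.coeff_zero] at h2
      rw [← h2]
      refine Finset.sum_congr rfl fun j _ => ?_
      rw [MulMemClass.coe_mul, hcA, mul_comm, C_mul_eq_smul, coeff_smul, hlA, laur_coeff,
        smul_eq_mul, Algebra.smul_def, mul_comm]
    have h3 := Fintype.linearIndependent_iff.1 hm (fun i => (l i).coeff n) h1 i
    rw [h3, coeff_zero]
  · -- the root
    have hα : (single (1 / (p : ℚ)) 1 : HahnSeries ℚ κ₁) ∈ P := by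
      rw [hP]
      refine ⟨p, hp.pos, fun a ha => ⟨1, ?_⟩⟩
      have h1 : a = 1 / (p : ℚ) := by
        by_contra h
        exact ha (coeff_single_of_ne h)
      rw [h1, one_div, inv_mul_cancel₀]
      · simp
      · exact_mod_cast hp.ne_zero
    refine ⟨⟨_, hα⟩, ?_, ?_⟩
    · apply Subtype.ext
      change (single (1 / (p : ℚ)) 1 : HahnSeries ℚ κ₁) ^ p = hmapHom (algebraMap κ κ₁)
        (laur κ (single 1 1))
      rw [laur_single, single_pow, one_pow, nsmul_eq_mul, mul_one_div_cancel]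
      · ext a
        rw [hmapHom_coeff]
        by_cases ha : a = 1
        · rw [ha, coeff_single_same, coeff_single_same, map_one]
        · rw [coeff_single_of_ne ha, coeff_single_of_ne ha, map_zero]
      · exact_mod_cast hp.ne_zero
    · intro h
      have h1 := congrArg (fun y : P => (y : HahnSeries ℚ κ₁).coeff (1 / (p : ℚ))) h
      simp only [hτA, hRt, coeff_single_same, mul_one] at h1
      apply hχp
      have h2 : algebraMap κ κ₁ (χ (1 / (p : ℚ))) = algebraMap κ κ₁ 1 := by rw [h1, map_one]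
      exact (algebraMap κ κ₁).injective h2
  · intro z
    apply Subtype.ext
    rw [hτS, hψ, hψ]
    ext1
    funext a
    rw [hRτ, hofmap]
    rfl
  · -- the algebraic closure of the power series with constant coefficients
    let J : P →+* P' := ((hmapHom cA).comp P.subtype).codRestrict P'.toSubring (fun x => by
      change hmapHom cA (x : HahnSeries ℚ κ₁) ∈ P'
      rw [hP']
      obtain ⟨N, hN, hx⟩ := (hP _).1 x.2
      refine ⟨N, hN, fun a ha => hx a ?_⟩
      intro h0
      apply ha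
      change cA ((x : HahnSeries ℚ κ₁).coeff a) = 0
      rw [h0, map_zero])
    refine ⟨J.fieldRange, ?_, ?_⟩
    · intro z
      have hz : (ofPowerSeries ℚ κ₁ z) ∈ P := by
        refine hint _ fun a ha => ?_
        have h1 : a ∈ (ofPowerSeries ℚ κ₁ z).support := ha
        obtain ⟨n, -, hn⟩ := support_embDomain_subset h1
        exact ⟨n, by rw [← hn]; simp⟩
      refine ⟨⟨_, hz⟩, ?_⟩
      apply Subtype.ext
      change hmapHom cA (ofPowerSeries ℚ κ₁ z) = ofPowerSeries ℚ P (PowerSeries.map cA z)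
      ext1
      funext a
      change cA ((ofPowerSeries ℚ κ₁ z).coeff a) = _
      by_cases ha : ∃ n : ℕ, a = n
      · obtain ⟨n, rfl⟩ := ha
        rw [ofPowerSeries_apply_coeff, ofPowerSeries_apply_coeff, PowerSeries.coeff_map]
      · have h1 : (ofPowerSeries ℚ P (PowerSeries.map cA z)).coeff a = 0 := by
          by_contra h
          exact ha (hofne _ _ h)
        have h2 : (ofPowerSeries ℚ κ₁ z).coeff a = 0 := by
          by_contra h
          apply ha
          have h3 : a ∈ (ofPowerSeries ℚ κ₁ z).support := h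
          obtain ⟨n, -, hn⟩ := support_embDomain_subset h3
          exact ⟨n, by rw [← hn]; simp⟩
        rw [h1, h2, map_zero]
    · intro y hy
      obtain ⟨x, rfl⟩ := mem_range_of_alg J hy
      apply Subtype.ext
      rw [hτS]
      ext1
      funext a
      rw [hRτ]
      exact hτc _
  · -- coefficientwise automorphisms
    intro ρ hρ
    obtain ⟨R1, hR1⟩ := exists_hmap ρ
    obtain ⟨ρA, hρA⟩ := exists_restr hP R1 (fun x a => by
      rw [hR1]
      exact (map_ne_zero_iff _ ρ.injective))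
    obtain ⟨R2, hR2⟩ := exists_hmap ρA
    obtain ⟨ρS, hρS⟩ := exists_restr hP' R2 (fun x a => by
      rw [hR2]
      exact (map_ne_zero_iff _ ρA.injective))
    refine ⟨ρA, ρS, ?_, ?_, ?_, ?_⟩
    · intro c
      apply Subtype.ext
      rw [hρA]
      ext a
      rw [hR1, hcA, hcA]
      by_cases ha : a = 0
      · rw [ha, C_apply, C_apply, coeff_single_same, coeff_single_same]
      · rw [C_apply, C_apply, coeff_single_of_ne ha, coeff_single_of_ne ha, map_zero]
    · intro l
      apply Subtype.ext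
      rw [hρA]
      ext a
      rw [hR1, hlA, hρ]
    · intro z
      apply Subtype.ext
      rw [hρS, hψ, hψ]
      ext1
      funext a
      rw [hR2, hofmap]
      rfl
    · intro y
      have hcomm : ∀ x : P, τA (ρA x) = ρA (τA x) := by
        intro x
        apply Subtype.ext
        rw [hτA, hρA, hρA, hτA]
        ext a
        rw [hRt, hR1, hR1, hRt, map_mul, hρ]
      apply Subtype.ext
      rw [hτS, hρS, hρS, hτS]
      ext1
      funext a
      rw [hRτ, hR2, hR2, hRτ, hcomm]

end Pool.Agent.PC
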