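import Pool.Agent.Helper37.PC.Basic

/-!
# The generic plane curve: `f (0, y)` is separable
-/

universe u

namespace Pool.Agent.PC

open MvPolynomial

/-- The coefficient of `y ^ d` of the generic curve is not zero and `f (0, y)` is separable. -/
theorem generic_sep {S : Type u} [Field S] [IsAlgClosed S] [CharZero S] {E : Subfield S} {d m : ℕ}
    (hd : 1 ≤ d) {x : Mon d × Fin (m + 2) → S} (hx : AlgebraicIndependent E x)
    {w : Fin (m + 2) → S} (hw : ∀ e, w e ∈ E) (hw0 : w 0 = 1) :
    (∑ e, x (⟨(0, Fin.last d), by simp⟩, e) * w e ≠ 0) ∧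
    (∑ j : Fin (d + 1), Polynomial.C (∑ e, x (⟨(0, j), by
      simpa using Nat.lt_succ_iff.1 j.2⟩, e) * w e) * Polynomial.X ^ (j : ℕ)).Separable := by
  classical
  have hne : ∀ q : Mon d, ∑ e, x (q, e) * w e ≠ 0 := by
    intro q h
    have h1 : (∑ e, X (q, e) * C (⟨w e, hw e⟩ : E) : MvPolynomial (Mon d × Fin (m + 2)) E) = 0 := by
      apply hx
      rw [map_sum, map_zero, ← h]
      refine Finset.sum_congr rfl fun e _ => ?_
      rw [map_mul, aeval_X, aeval_C]
      rfl
    have h2 := congrArg (eval (Pi.single (q, 0) (1 : E))) h1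
    rw [map_sum, map_zero, Finset.sum_eq_single 0] at h2
    · rw [map_mul, eval_X, eval_C, Pi.single_eq_same, one_mul] at h2
      have h3 := congrArg (fun y : E => (y : S)) h2
      simp only at h3
      rw [hw0] at h3
      exact one_ne_zero h3
    · intro e _ he
      rw [map_mul, eval_X, Pi.single_eq_of_ne, zero_mul]
      intro h4
      exact he (Prod.ext_iff.1 h4).2
    · intro h4
      exact absurd (Finset.mem_univ _) h4
  refine ⟨hne _, ?_⟩
  -- notation
  let i₀ : Mon d × Fin (m + 2) := (⟨(0, 0), by simp⟩, 0)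
  let A : Subalgebra E S := Algebra.adjoin E (x '' {i₀}ᶜ)
  have htr : Transcendental A (x i₀) := by
    have h1 := hx.transcendental_adjoin (s := {i₀}ᶜ) (i := i₀) (by simp)
    exact h1
  have hwA : ∀ e, w e ∈ A := fun e => A.algebraMap_mem ⟨w e, hw e⟩
  have hxA : ∀ i, i ≠ i₀ → x i ∈ A := fun i hi => Algebra.subset_adjoin ⟨i, hi, rfl⟩
  have hfA : ∀ j : Fin d, ∑ e, x (⟨(0, j.succ), by simp⟩, e) * w e ∈ A := by
    intro j
    refine A.sum_mem fun e _ => A.mul_mem (hxA _ ?_) (hwA e)
    intro h
    have h1 := congrArg (fun i : Mon d × Fin (m + 2) => (i.1.1.2 : ℕ)) h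
    simp [i₀] at h1
  have hf0 : ∑ e : Fin (m + 1), x (⟨(0, 0), by simp⟩, e.succ) * w e.succ ∈ A := by
    refine A.sum_mem fun e _ => A.mul_mem (hxA _ ?_) (hwA _)
    intro h
    have h1 := congrArg (fun i : Mon d × Fin (m + 2) => i.2) h
    exact Fin.succ_ne_zero e h1
  let HA : Polynomial A := ∑ j : Fin d, Polynomial.C (⟨_, hfA j⟩ : A) * Polynomial.X ^ ((j : ℕ) + 1)
  -- decomposition
  set g : Polynomial S := ∑ j : Fin (d + 1), Polynomial.C (∑ e, x (⟨(0, j), by
      simpa using Nat.lt_succ_iff.1 j.2⟩, e) * w e) * Polynomial.X ^ (j : ℕ) with hg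
  have hg' : g = Polynomial.C (x i₀ + ∑ e : Fin (m + 1), x (⟨(0, 0), by simp⟩, e.succ) * w e.succ) +
      HA.map (algebraMap A S) := by
    rw [hg, Fin.sum_univ_succ]
    congr 1
    · rw [Fin.sum_univ_succ, hw0, mul_one]
      simp [i₀]
    · rw [Polynomial.map_sum]
      refine Finset.sum_congr rfl fun j _ => ?_
      rw [Polynomial.map_mul, Polynomial.map_pow, Polynomial.map_X, Polynomial.map_C]
      rfl
  rw [Polynomial.Separable, Polynomial.isCoprime_iff_aeval_ne_zero_of_isAlgClosed S S]
  intro β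
  by_contra hcon
  push Not at hcon
  obtain ⟨h1, h2⟩ := hcon
  have hder : Polynomial.aeval β (Polynomial.derivative HA) = 0 := by
    rw [hg', Polynomial.derivative_add, Polynomial.derivative_C, zero_add, Polynomial.derivative_map,
      Polynomial.coe_aeval_eq_eval, Polynomial.eval_map_algebraMap] at h2
    exact h2
  have hcoeff : HA.coeff d ≠ 0 := by
    have h3 : HA.coeff d = ⟨_, hfA ⟨d - 1, by omega⟩⟩ := by
      change (∑ j : Fin d, Polynomial.C (⟨_, hfA j⟩ : A) * Polynomial.X ^ ((j : ℕ) + 1)).coeff d = _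
      rw [Polynomial.finsetSum_coeff, Finset.sum_eq_single ⟨d - 1, by omega⟩]
      · rw [Polynomial.coeff_C_mul_X_pow, if_pos]
        simp
        omega
      · intro j _ hj
        rw [Polynomial.coeff_C_mul_X_pow, if_neg]
        intro h
        apply hj
        apply Fin.ext
        simp
        omega
      · intro h4
        exact absurd (Finset.mem_univ _) h4
    rw [h3]
    intro h4
    have h5 := congrArg (fun y : A => (y : S)) h4
    exact hne _ h5
  have hder0 : Polynomial.derivative HA ≠ 0 := by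
    intro h
    have h3 := congrArg (fun P : Polynomial A => P.coeff (d - 1)) h
    simp only [Polynomial.coeff_derivative, Polynomial.coeff_zero] at h3
    rw [Nat.sub_add_cancel hd] at h3
    rcases mul_eq_zero.1 h3 with h4 | h4
    · exact hcoeff h4
    · have h5 : (((d - 1 : ℕ) : A) + 1) = ((d : ℕ) : A) := by
        rw [← Nat.cast_add_one, Nat.sub_add_cancel hd]
      rw [h5] at h4
      have h6 := congrArg (fun y : A => (y : S)) h4
      simp at h6
      omega
  have hβ : IsAlgebraic A β := ⟨_, hder0, hder⟩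
  have hHβ : IsAlgebraic A (Polynomial.aeval β HA) := by
    have h3 : Polynomial.aeval β HA ∈ Subalgebra.algebraicClosure A S :=
      (Algebra.adjoin_le (S := Subalgebra.algebraicClosure A S) (s := {β}) (by
        rw [Set.singleton_subset_iff]
        exact hβ)) (Polynomial.aeval_mem_adjoin_singleton A β)
    exact h3
  have hx0 : x i₀ = -(∑ e : Fin (m + 1), x (⟨(0, 0), by simp⟩, e.succ) * w e.succ +
      Polynomial.aeval β HA) := by
    rw [hg', map_add, Polynomial.aeval_C, Polynomial.coe_aeval_eq_eval,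
      Polynomial.eval_map_algebraMap] at h1
    have h3 : x i₀ + ∑ e : Fin (m + 1), x (⟨(0, 0), by simp⟩, e.succ) * w e.succ +
      Polynomial.aeval β HA = 0 := h1
    linear_combination h3
  apply htr
  rw [hx0]
  exact (IsAlgebraic.add (isAlgebraic_algebraMap (⟨_, hf0⟩ : A)) hHβ).neg

end Pool.Agent.PC
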