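import Pool.Agent.Helper37.TH.Split

/-!
# Embedding of `κ(T, q)` in the field of Laurent series
-/

universe u

namespace Pool.Agent.PC

open Polynomial

/-- Hensel's lemma for a polynomial with simple roots at the origin. -/
theorem splits_powerSeries {κ : Type u} [Field κ] {e : ℕ} {P : Fin e → κ[X]} {r : Fin e → κ}
    (hr : Function.Injective r) (hr0 : ∀ j, r j ^ e + ∑ i, (P i).eval 0 * r j ^ (i : ℕ) = 0) :
    ∃ g : Fin e → PowerSeries κ,
      ((X ^ e + ∑ i, C (P i) * X ^ (i : ℕ) : κ[X][X]).map coeToPowerSeries.ringHom) =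
        ∏ j, (X - C (g j)) := by
  classical
  set F : κ[X][X] := X ^ e + ∑ i, C (P i) * X ^ (i : ℕ) with hF
  have hFm : F.Monic := monic_X_pow_add (degree_sum_fin_lt _)
  have hFdeg : F.natDegree = e := by
    rw [hF, natDegree_add_eq_left_of_degree_lt, natDegree_X_pow]
    rw [degree_X_pow]
    exact degree_sum_fin_lt _
  set Fs := F.map (coeToPowerSeries.ringHom : κ[X] →+* PowerSeries κ) with hFs
  have hFsm : Fs.Monic := hFm.map _
  have hFsdeg : Fs.natDegree = e := by rw [hFs, hFm.natDegree_map, hFdeg]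
  let cc : PowerSeries κ →+* κ := PowerSeries.constantCoeff
  have hcc : cc.comp (coeToPowerSeries.ringHom : κ[X] →+* PowerSeries κ) = evalRingHom 0 := by
    refine RingHom.ext fun p => ?_
    change PowerSeries.constantCoeff (p : PowerSeries κ) = p.eval 0
    rw [← PowerSeries.coeff_zero_eq_constantCoeff_apply, coeff_coe, coeff_zero_eq_eval_zero]
  have hF0 : Fs.map cc = ∏ j, (X - C (r j)) := by
    have h1 : Fs.map cc = F.map (evalRingHom 0) := by
      rw [hFs, Polynomial.map_map, hcc]
    have hm : (Fs.map cc).Monic := hFsm.map _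
    have hdeg : (Fs.map cc).natDegree = e := by rw [hFsm.natDegree_map, hFsdeg]
    have hroot : ∀ j, (Fs.map cc).IsRoot (r j) := by
      intro j
      rw [h1, IsRoot.def, eval_map, hF]
      rw [eval₂_add, eval₂_pow, eval₂_X, eval₂_finsetSum]
      refine Eq.trans ?_ (hr0 j)
      congr 1
      refine Finset.sum_congr rfl fun i _ => ?_
      rw [eval₂_mul, eval₂_C, eval₂_pow, eval₂_X]
      rfl
    have hdvd : ∏ j, (X - C (r j)) ∣ Fs.map cc :=
      Finset.prod_dvd_of_coprime (fun i _ j _ hij => isCoprime_X_sub_C_of_isUnit_sub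
        (isUnit_iff_ne_zero.2 (sub_ne_zero.2 fun h => hij (hr h))))
        fun j _ => dvd_iff_isRoot.2 (hroot j)
    refine eq_of_monic_of_dvd_of_natDegree_le (monic_prod_of_monic _ _ fun i _ =>
      monic_X_sub_C _) hm hdvd ?_
    rw [hdeg, natDegree_prod_of_monic _ _ fun i _ => monic_X_sub_C _]
    simp
  -- lifts of the roots
  have hlift : ∀ j, ∃ g : PowerSeries κ, Fs.IsRoot g ∧ cc g = r j := by
    intro j
    have hH : HenselianRing (PowerSeries κ) (Ideal.span {PowerSeries.X}) := inferInstance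
    have hcoe : ∀ p : PowerSeries κ, p ∈ Ideal.span {(PowerSeries.X : PowerSeries κ)} ↔ cc p = 0 := by
      intro p
      rw [Ideal.mem_span_singleton, PowerSeries.X_dvd_iff]
    have hev : ∀ G : (PowerSeries κ)[X], cc (G.eval (PowerSeries.C (r j))) = (G.map cc).eval (r j) := by
      intro G
      rw [eval_map, eval, hom_eval₂]
      simp [cc]
    obtain ⟨g, hg, hgr⟩ := hH.is_henselian Fs hFsm (PowerSeries.C (r j)) (by
      rw [hcoe, hev, hF0, eval_prod]
      exact Finset.prod_eq_zero (Finset.mem_univ j) (by simp)) (by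
      have h1 : cc (Fs.derivative.eval (PowerSeries.C (r j))) ≠ 0 := by
        rw [hev, ← derivative_map, hF0]
        have h2 : (∏ j, (X - C (r j)) : κ[X]).Separable :=
          separable_prod_X_sub_C_iff.2 hr
        intro h3
        have h4 : (∏ j, (X - C (r j)) : κ[X]).eval (r j) = 0 := by
          rw [eval_prod]
          exact Finset.prod_eq_zero (Finset.mem_univ j) (by simp)
        obtain ⟨u, v, huv⟩ := h2
        have h5 := congrArg (eval (r j)) huv
        rw [eval_add, eval_mul, eval_mul, h4, h3, mul_zero, mul_zero, add_zero, eval_one] at h5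
        exact zero_ne_one h5
      have h6 : IsUnit (Fs.derivative.eval (PowerSeries.C (r j))) := by
        rw [PowerSeries.isUnit_iff_constantCoeff]
        exact isUnit_iff_ne_zero.2 h1
      exact h6.map _)
    refine ⟨g, hg, ?_⟩
    rw [hcoe, map_sub, sub_eq_zero] at hgr
    rw [hgr]
    simp [cc]
  choose g hg hgr using hlift
  refine ⟨g, ?_⟩
  have hginj : Function.Injective g := fun i j hij => hr (by rw [← hgr, ← hgr, hij])
  have hroots : (Finset.univ.val.map g) ≤ Fs.roots := by
    rw [Multiset.le_iff_subset (Multiset.Nodup.map hginj Finset.univ.nodup)]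
    intro y hy
    rw [Multiset.mem_map] at hy
    obtain ⟨j, -, rfl⟩ := hy
    rw [mem_roots hFsm.ne_zero]
    exact hg j
  have hcard : Fs.roots.card ≤ (Finset.univ.val.map g).card := by
    rw [Multiset.card_map, Finset.card_val, Finset.card_univ, Fintype.card_fin]
    exact (card_roots' Fs).trans hFsdeg.le
  have hroots2 := Multiset.eq_of_le_of_card_le hroots hcard
  have h1 := prod_multiset_X_sub_C_of_monic_of_roots_card_eq hFsm (by
    rw [← hroots2, Multiset.card_map, Finset.card_val, Finset.card_univ, Fintype.card_fin, hFsdeg])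
  rw [← h1, ← hroots2, Multiset.map_map]
  rfl

/-- `κ(T, q)` embeds in the Laurent series over `κ`, with `T ↦ t`. -/
theorem exists_embed {S : Type u} [Field S] {κ E : Subfield S} {T q : S}
    (hT : Transcendental κ T) (hq : TH.SplitAt κ T q)
    (hE : E = Subfield.closure ((κ : Set S) ∪ {T, q})) :
    ∃ φ : E →+* HahnSeries ℤ κ, (∀ (c : κ) (h : (c : S) ∈ E), φ ⟨c, h⟩ = HahnSeries.C c) ∧
      ∀ h : T ∈ E, φ ⟨T, h⟩ = HahnSeries.single 1 1 := by
  classical
  obtain ⟨e, P, r, hr, hr0, hq0⟩ := hq
  obtain ⟨g, hg⟩ := splits_powerSeries hr hr0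
  let F0 := FractionRing κ[X]
  -- the two algebra structures
  let jL : κ[X] →+* HahnSeries ℤ κ :=
    (HahnSeries.ofPowerSeries ℤ κ).comp (coeToPowerSeries.ringHom : κ[X] →+* PowerSeries κ)
  have hjL : Function.Injective jL :=
    HahnSeries.ofPowerSeries_injective.comp (Polynomial.coe_injective κ)
  let jS : κ[X] →+* S := (aeval T : κ[X] →ₐ[κ] S).toRingHom
  have hjS : Function.Injective jS := transcendental_iff_injective.1 hT
  let aS : F0 →+* S := IsFractionRing.lift (A := κ[X]) (g := jS) hjS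
  let aL : F0 →+* HahnSeries ℤ κ := IsFractionRing.lift (A := κ[X]) (g := jL) hjL
  have haS : ∀ p : κ[X], aS (algebraMap κ[X] F0 p) = aeval T p := fun p =>
    IsFractionRing.lift_algebraMap hjS p
  have haL : ∀ p : κ[X], aL (algebraMap κ[X] F0 p) = jL p := fun p =>
    IsFractionRing.lift_algebraMap hjL p
  let _ : Algebra F0 S := aS.toAlgebra
  let _ : Algebra F0 (HahnSeries ℤ κ) := aL.toAlgebra
  set Fz : κ[X][X] := X ^ e + ∑ i, C (P i) * X ^ (i : ℕ) with hFz
  have hFm : Fz.Monic := monic_X_pow_add (degree_sum_fin_lt _)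
  let Fq : F0[X] := Fz.map (algebraMap κ[X] F0)
  have hFq : aeval q Fq = 0 := by
    have h1 : (algebraMap F0 S).comp (algebraMap κ[X] F0) = jS := RingHom.ext haS
    rw [aeval_def, eval₂_map, h1, hFz, eval₂_add, eval₂_pow, eval₂_X, eval₂_finsetSum, ← hq0]
    congr 1
    refine Finset.sum_congr rfl fun i _ => ?_
    rw [eval₂_mul, eval₂_C, eval₂_pow, eval₂_X]
    rfl
  have hint : IsIntegral F0 q := ⟨Fq, hFm.map _, by rw [← aeval_def]; exact hFq⟩
  have hsplit : (Fq.map (algebraMap F0 (HahnSeries ℤ κ))).Splits := by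
    have h1 : (algebraMap F0 (HahnSeries ℤ κ)).comp (algebraMap κ[X] F0) = jL := RingHom.ext haL
    have h2 : Fq.map (algebraMap F0 (HahnSeries ℤ κ)) =
        ∏ j, (X - C (HahnSeries.ofPowerSeries ℤ κ (g j))) := by
      rw [Polynomial.map_map, h1]
      change Fz.map ((HahnSeries.ofPowerSeries ℤ κ).comp _) = _
      rw [← Polynomial.map_map, hg, Polynomial.map_prod]
      simp
    rw [h2]
    exact Splits.prod fun j _ => Splits.X_sub_C _
  have hKs : ∀ s ∈ ({q} : Set S), IsIntegral F0 s ∧
      ((minpoly F0 s).map (algebraMap F0 (HahnSeries ℤ κ))).Splits := by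
    intro s hs
    rw [Set.mem_singleton_iff.1 hs]
    refine ⟨hint, ?_⟩
    refine hsplit.of_dvd ?_ (Polynomial.map_dvd _ (minpoly.dvd F0 q hFq))
    exact (hFm.map (algebraMap κ[X] F0)).map (algebraMap F0 (HahnSeries ℤ κ)) |>.ne_zero
  obtain ⟨φ⟩ := IntermediateField.nonempty_algHom_adjoin_of_splits hKs
  let N := IntermediateField.adjoin F0 ({q} : Set S)
  have hTN : T ∈ N := by
    have h1 : algebraMap F0 S (algebraMap κ[X] F0 X) = T := by
      change aS _ = T
      rw [haS, aeval_X]
    rw [← h1]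
    exact N.algebraMap_mem _
  have hcN : ∀ c : κ, (c : S) ∈ N := by
    intro c
    have h1 : algebraMap F0 S (algebraMap κ[X] F0 (C c)) = c := by
      change aS _ = _
      rw [haS, aeval_C]
      rfl
    rw [← h1]
    exact N.algebraMap_mem _
  have hEN : ∀ y : S, y ∈ E → y ∈ N := by
    intro y hy
    rw [hE] at hy
    have h1 : Subfield.closure ((κ : Set S) ∪ {T, q}) ≤ N.toSubfield := by
      rw [Subfield.closure_le]
      rintro y (hy | hy)
      · exact hcN ⟨y, hy⟩
      · rcases hy with rfl | hy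
        · exact hTN
        · rw [Set.mem_singleton_iff.1 hy]
          exact IntermediateField.subset_adjoin F0 _ rfl
    exact h1 hy
  let ψ : E →+* N := E.subtype.codRestrict N.toSubfield.toSubring (fun y => hEN y y.2)
  refine ⟨(φ : N →+* HahnSeries ℤ κ).comp ψ, ?_, ?_⟩
  · intro c h
    have h1 : ψ ⟨c, h⟩ = algebraMap F0 N (algebraMap κ[X] F0 (C c)) := by
      apply Subtype.ext
      change (c : S) = aS _
      rw [haS, aeval_C]
      rfl
    change φ (ψ ⟨c, h⟩) = _
    rw [h1, AlgHom.commutes]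
    change aL _ = _
    rw [haL]
    change HahnSeries.ofPowerSeries ℤ κ ((C c : κ[X]) : PowerSeries κ) = _
    rw [Polynomial.coe_C, HahnSeries.ofPowerSeries_C]
  · intro h
    have h1 : ψ ⟨T, h⟩ = algebraMap F0 N (algebraMap κ[X] F0 X) := by
      apply Subtype.ext
      change T = aS _
      rw [haS, aeval_X]
    change φ (ψ ⟨T, h⟩) = _
    rw [h1, AlgHom.commutes]
    change aL _ = _
    rw [haL]
    change HahnSeries.ofPowerSeries ℤ κ ((X : κ[X]) : PowerSeries κ) = _
    rw [Polynomial.coe_X, HahnSeries.ofPowerSeries_X]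

end Pool.Agent.PC
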