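import Mathlib

/-!
# Extension of automorphisms of a relatively algebraically closed subfield
-/

universe u

namespace Pool.Agent.PC

/-- An automorphism of a subfield of an algebraically closed field extends. -/
theorem exists_ext_aut {S : Type u} [Field S] [IsAlgClosed S] {Ω : Type u} [Field Ω] [Algebra Ω S]
    (σ : Ω ≃+* Ω) : ∃ τ : S ≃+* S, ∀ y : Ω, τ (algebraMap Ω S y) = algebraMap Ω S (σ y) := by
  obtain ⟨s, hs⟩ := exists_isTranscendenceBasis Ω S
  let v : s → S := (↑)
  have h1 : IsAlgClosure (Algebra.adjoin Ω (Set.range v)) S := by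
    refine ⟨inferInstance, ?_⟩
    exact hs.isAlgebraic
  let e1 : MvPolynomial s Ω ≃ₐ[Ω] Algebra.adjoin Ω (Set.range v) := hs.1.aevalEquiv
  let e : Algebra.adjoin Ω (Set.range v) ≃+* Algebra.adjoin Ω (Set.range v) :=
    (e1.symm.toRingEquiv.trans (MvPolynomial.mapEquiv s σ)).trans e1.toRingEquiv
  have hfs : FaithfulSMul (Algebra.adjoin Ω (Set.range v)) S := inferInstance
  refine ⟨IsAlgClosure.equivOfEquiv S S e, fun y => ?_⟩
  have h2 : algebraMap Ω S y = algebraMap (Algebra.adjoin Ω (Set.range v)) S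
      (algebraMap Ω (Algebra.adjoin Ω (Set.range v)) y) := rfl
  rw [h2, IsAlgClosure.equivOfEquiv_algebraMap]
  have h3 : e (algebraMap Ω (Algebra.adjoin Ω (Set.range v)) y) =
      algebraMap Ω (Algebra.adjoin Ω (Set.range v)) (σ y) := by
    change e1 (MvPolynomial.mapEquiv s σ (e1.symm (algebraMap Ω _ y))) = _
    rw [AlgEquiv.commutes, MvPolynomial.algebraMap_eq, MvPolynomial.mapEquiv_apply,
      MvPolynomial.map_C, ← MvPolynomial.algebraMap_eq]
    exact AlgEquiv.commutes _ _
  rw [h3]
  rfl

/-- **Transport.**  Two algebraically closed fields over `F`: automorphisms of the first one over `F`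
have counterparts on the second one. -/
theorem exists_transport {F : Type u} [Field F] {S S₁ : Type u} [Field S] [Field S₁]
    [IsAlgClosed S] [IsAlgClosed S₁] [Algebra F S] [Algebra F S₁] :
    ∃ e : algebraicClosure F S₁ ≃ₐ[F] algebraicClosure F S,
      ∀ σ : S₁ ≃+* S₁, (∀ c : F, σ (algebraMap F S₁ c) = algebraMap F S₁ c) →
        ∃ τ : S ≃+* S, (∀ c : F, τ (algebraMap F S c) = algebraMap F S c) ∧
          ∀ y y' : algebraicClosure F S₁, σ (y : S₁) = y' → τ (e y : S) = e y' := by
  have i1 : IsAlgClosure F (algebraicClosure F S₁) := algebraicClosure.isAlgClosure F S₁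
  have i2 : IsAlgClosure F (algebraicClosure F S) := algebraicClosure.isAlgClosure F S
  refine ⟨IsAlgClosure.equiv F _ _, ?_⟩
  set e := IsAlgClosure.equiv F (algebraicClosure F S₁) (algebraicClosure F S)
  intro σ hσ
  let σ' : S₁ ≃ₐ[F] S₁ := AlgEquiv.ofRingEquiv (f := σ) hσ
  have hmem : ∀ (σ : S₁ ≃ₐ[F] S₁) (y : algebraicClosure F S₁), σ (y : S₁) ∈ algebraicClosure F S₁ := by
    intro σ y
    rw [mem_algebraicClosure_iff]
    exact (mem_algebraicClosure_iff.1 y.2).algHom (σ : S₁ →ₐ[F] S₁)
  let f : algebraicClosure F S₁ ≃+* algebraicClosure F S₁ :=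
    { toFun := fun y => ⟨σ' y, hmem σ' y⟩
      invFun := fun y => ⟨σ'.symm y, hmem σ'.symm y⟩
      left_inv := fun y => Subtype.ext (σ'.symm_apply_apply _)
      right_inv := fun y => Subtype.ext (σ'.apply_symm_apply _)
      map_mul' := fun a b => Subtype.ext (map_mul σ' _ _)
      map_add' := fun a b => Subtype.ext (map_add σ' _ _) }
  obtain ⟨τ, hτ⟩ := exists_ext_aut (S := S) (Ω := algebraicClosure F S)
    ((e.symm.toRingEquiv.trans f).trans e.toRingEquiv)
  refine ⟨τ, fun c => ?_, fun y y' hy => ?_⟩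
  · have h1 := hτ (algebraMap F _ c)
    have h2 : ((e.symm.toRingEquiv.trans f).trans e.toRingEquiv) (algebraMap F _ c) =
        algebraMap F (algebraicClosure F S) c := by
      change e (f (e.symm (algebraMap F _ c))) = _
      rw [AlgEquiv.commutes]
      have h3 : f (algebraMap F _ c) = algebraMap F _ c := Subtype.ext (hσ c)
      rw [h3, AlgEquiv.commutes]
    rw [h2] at h1
    exact h1
  · have h1 := hτ (e y)
    have h2 : ((e.symm.toRingEquiv.trans f).trans e.toRingEquiv) (e y) = e y' := by
      change e (f (e.symm (e y))) = _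
      rw [AlgEquiv.symm_apply_apply]
      congr 1
      exact Subtype.ext hy
    rw [h2] at h1
    exact h1

end Pool.Agent.PC
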