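import Pool.Agent.Helper37.PC.Geo1c
import Pool.Agent.Helper45.PLN.Cert
import Pool.Agent.Helper10.PL.Sol2

/-!
# GEO over the explicit field
-/

universe u v

namespace Pool.Agent.PC

open MvPolynomial

/-- Ring homomorphisms from `E(X)` that agree on constants and variables are equal. -/
lemma ff_ext {E : Type u} [Field E] {d m : ℕ} {S : Type v} [Field S] {g h : FF E d m →+* S}
    (hC : ∀ c, g (algebraMap (MvPolynomial (Idx d m) E) (FF E d m) (C c)) =
      h (algebraMap (MvPolynomial (Idx d m) E) (FF E d m) (C c)))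
    (hX : ∀ i, g (algebraMap (MvPolynomial (Idx d m) E) (FF E d m) (X i)) =
      h (algebraMap (MvPolynomial (Idx d m) E) (FF E d m) (X i))) : g = h := by
  apply IsLocalization.ringHom_ext (nonZeroDivisors (MvPolynomial (Idx d m) E))
  apply MvPolynomial.ringHom_ext
  · exact hC
  · exact hX

/-- An element algebraic over the image is algebraic. -/
lemma alg_of_fieldRange {F S : Type u} [Field F] [Field S] [Algebra F S] {y : S}
    (h : IsAlgebraic (algebraMap F S).fieldRange y) : IsAlgebraic F y := by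
  refine IsAlgebraic.of_ringHom_of_comp_eq (S := (algebraMap F S).fieldRange)
    (f := (algebraMap F S).rangeRestrictField) (g := RingHom.id S) h ?_ ?_ ?_
  · rintro ⟨_, z, rfl⟩
    exact ⟨z, rfl⟩
  · exact Function.injective_id
  · ext x
    rfl

theorem geo1 {κ E : Type u} [Field κ] [IsAlgClosed κ] [CharZero κ] [Field E] [Algebra κ E]
    (φE : E →+* HahnSeries ℤ κ) (hφc : ∀ c : κ, φE (algebraMap κ E c) = HahnSeries.C c) {T : E}
    (hφT : φE T = HahnSeries.single 1 1) {d p r m : ℕ} (hp : p.Prime) (hd : d = p * r)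
    (hd3 : 3 ≤ d) {w : Fin (m + 2) → E} (hw0 : w 0 = 1) (hw1 : w 1 = T) :
    ∃ (S₁ : Type u) (_ : Field S₁) (_ : Algebra (FF E d m) S₁) (M : ℕ)
      (G : Fin d → Mon (1 + p * d) → algebraicClosure (FF E d m) S₁)
      (W : Mon (r * (1 + p * d)) → algebraicClosure (FF E d m) S₁)
      (H : Mon (d * (p * d)) → algebraicClosure (FF E d m) S₁)
      (D D' : Fin d → Mon M → algebraicClosure (FF E d m) S₁)
      (c : Fin d → Fin (M + 1) → algebraicClosure (FF E d m) S₁) (τ : S₁ ≃+* S₁)
      (Q : Subfield S₁),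
      1 + p * d ≤ M ∧ IsAlgClosed S₁ ∧
      -- the identities
      ∏ i, pol (G i) = C (algebraMap (FF E d m) (algebraicClosure (FF E d m) S₁)
        (algebraMap (MvPolynomial (Idx d m) E) (FF E d m) (C T))) * pol W ^ p +
        pol H * pol (fun a => algebraMap (FF E d m) (algebraicClosure (FF E d m) S₁) (fgen w a)) ∧
      (∀ i j, i ≠ j → Cop (G i) (G j)
        (fun a => algebraMap (FF E d m) (algebraicClosure (FF E d m) S₁) (fgen w a)) M) ∧
      (∀ i, c i ≠ 0 ∧ pol (D i) * pol (G i) + pol (D' i) *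
        pol (fun a => algebraMap (FF E d m) (algebraicClosure (FF E d m) S₁) (fgen w a)) =
          polX (c i)) ∧
      -- the automorphism `τ`
      (∀ y : FF E d m, τ (algebraMap _ S₁ y) = algebraMap _ S₁ y) ∧
      (∀ y : κ, algebraMap (FF E d m) S₁ (algebraMap (MvPolynomial (Idx d m) E) (FF E d m)
        (C (algebraMap κ E y))) ∈ Q) ∧
      (∀ i : Idx d m, algebraMap (FF E d m) S₁ (algebraMap (MvPolynomial (Idx d m) E) (FF E d m)
        (X i)) ∈ Q) ∧
      (∀ y, IsAlgebraic Q y → τ y = y) ∧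
      (∀ i a, τ (G i a : S₁) = G i a) ∧ (∀ a, τ (W a : S₁) = W a) ∧
      (∀ α : S₁, α ^ p = algebraMap (FF E d m) S₁
        (algebraMap (MvPolynomial (Idx d m) E) (FF E d m) (C T)) → τ α ≠ α) ∧
      -- the transpositions
      ∀ i j l, i ≠ j → j ≠ l → i ≠ l → ∃ ρ : S₁ ≃+* S₁,
        (∀ y : FF E d m, ρ (algebraMap _ S₁ y) = algebraMap _ S₁ y) ∧
        (∀ a, ρ (G i a : S₁) = G j a) ∧ (∀ a, ρ (G l a : S₁) = G l a) ∧
        ∀ y, τ (ρ y) = ρ (τ y) := by
  classical
  obtain ⟨κ₁, iF1, iA1, Γ, x, ξ, hcl, hΓ, hξa, hξb, hξ, hperm⟩ :=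
    exists_K1 κ (d := d) (idx0 m) idx0_injective (spec0 κ)
  obtain ⟨A, S₁, iFA, iFS, cA, lA, ψ, τA, τS, hScl, hψ, hlc, hli, hτc, hτl, ⟨α₀, hα₀, hτα⟩, hτS,
    ⟨Q, hQ, hQalg⟩, hρ⟩ := exists_hahn κ κ₁ hp
  have hd0 : 0 < d := by omega
  -- characteristic
  have hκ₁0 : CharZero κ₁ := charZero_of_injective_algebraMap (algebraMap κ κ₁).injective
  have hA0 : CharZero A := charZero_of_injective_ringHom cA.injective
  -- the series
  set φA : E →+* A := lA.comp φE with hφA
  set s : Idx d m → A := fun i => cA (ser0 (κ := κ) ξ i) with hs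
  set t : Idx d m → A := fun i => cA (ser1 x i) with ht
  set xs : Idx d m → PowerSeries A := fun i =>
    PowerSeries.C (s i) + PowerSeries.X * PowerSeries.C (t i) with hxs
  set g0 : MvPolynomial (Idx d m) E →+* PowerSeries A :=
    eval₂Hom ((PowerSeries.C).comp φA) xs with hg0
  have hg0inj : Function.Injective g0 := by
    refine inj_of_spec φA s t ?_
    have h1 : (fun i => s i + t i) = fun i => cA (ξ i) := by
      funext i
      rw [hs, ht]
      simp only
      rw [← map_add, ser_add hξb]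
    rw [h1]
    exact sum_ne_zero_of_indep hli φE hξ
  have hg0C : ∀ b, g0 (C b) = PowerSeries.C (φA b) := fun b => by
    rw [hg0, coe_eval₂Hom, eval₂_C]
    rfl
  have hg0X : ∀ i, g0 (X i) = xs i := fun i => by
    rw [hg0, coe_eval₂Hom, eval₂_X]
  have hginj : Function.Injective (ψ.comp g0) := hψ.comp hg0inj
  letI iAlg : Algebra (FF E d m) S₁ := (IsFractionRing.lift hginj).toAlgebra
  have hmap : ∀ P : MvPolynomial (Idx d m) E, algebraMap (FF E d m) S₁
      (algebraMap (MvPolynomial (Idx d m) E) (FF E d m) P) = ψ (g0 P) := fun P =>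
    IsFractionRing.lift_algebraMap hginj P
  -- the generic curve
  set f : Mon d → PowerSeries A := fun q => ∑ e, xs (q, e) * PowerSeries.C (φA (w e)) with hf
  have hfgen : ∀ q, algebraMap (FF E d m) S₁ (fgen w q) = ψ (f q) := by
    intro q
    rw [fgen, hmap, map_sum, hf]
    congr 1
    refine Finset.sum_congr rfl fun e _ => ?_
    rw [map_mul, hg0C, hg0X]
  set T' : A := lA (HahnSeries.single 1 1) with hT'
  have hφT' : φA T = T' := by
    rw [hφA, RingHom.comp_apply, hφT]
  have hT'0 : T' ≠ 0 := by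
    rw [hT']
    intro h
    have h1 := (map_eq_zero lA).1 h
    exact one_ne_zero (HahnSeries.single_eq_zero_iff.1 h1)
  set γ : Fin d → A := fun i => cA (Γ i) with hγ
  have hγinj : Function.Injective γ := cA.injective.comp hΓ.injective
  have hγ1 : ∀ i j, γ i ≠ γ j + 1 := by
    intro i j h
    have h1 : Γ i = Γ j + 1 := by
      apply cA.injective
      rw [map_add, map_one]
      exact h
    have h2 : (X i - X j - 1 : MvPolynomial (Fin d) κ) = 0 := by
      apply hΓ
      rw [map_sub, map_sub, aeval_X, aeval_X, map_one, map_zero, h1]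
      ring
    have h3 := congrArg (eval (fun _ => (0 : κ))) h2
    simp at h3
  have hxs0 : ∀ i, PowerSeries.constantCoeff (xs i) = s i := fun i => by
    rw [hxs]
    simp
  have hf0 : pol (fun q => PowerSeries.constantCoeff (f q)) = f0 γ T' := by
    have h1 : (fun q => PowerSeries.constantCoeff (f q)) =
        fun q : Mon d => (f0 γ T').coeff (mexp q) := by
      funext q
      have h2 := sum_ser0 cA (κ := κ) (m := m) hξa (v := fun e => φA (w e))
        (by rw [hw0, map_one]) q
      rw [hw1, hφT'] at h2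
      rw [← h2, hf]
      rw [map_sum]
      refine Finset.sum_congr rfl fun e _ => ?_
      rw [map_mul, hxs0, PowerSeries.constantCoeff_C]
    rw [h1]
    exact pol_coeff (totalDegree_f0_le γ T')
  obtain ⟨G, W, H, hGW, hG0, hequi, halg⟩ := exists_sol hp hd hd0 le_rfl hT'0 hγinj hγ1 f hf0
  -- algebraicity
  set K₀ : Subfield S₁ := (algebraMap (FF E d m) S₁).fieldRange with hK₀
  have hmem : ∀ P : MvPolynomial (Idx d m) E, ψ (g0 P) ∈ K₀ := fun P => ⟨_, hmap P⟩
  have hTmem : ψ (PowerSeries.C T') ∈ K₀ := by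
    rw [← hφT', ← hg0C]
    exact hmem _
  have hfmem : ∀ q, ψ (f q) ∈ K₀ := fun q => ⟨_, hfgen q⟩
  have hxsj : ∀ j : Fin d, xs (idx0 m j) =
      PowerSeries.C ((∏ i, (Polynomial.X - Polynomial.C (γ i))).coeff (j : ℕ)) := by
    intro j
    have h1 : ser0 (κ := κ) ξ (idx0 m j) = ξ (idx0 m j) := if_pos ⟨j, rfl⟩
    have h2 : ser1 x (idx0 m j) = 0 := if_pos ⟨j, rfl⟩
    have h3 : (∏ i, (Polynomial.X - Polynomial.C (γ i))) =
        (∏ i, (Polynomial.X - Polynomial.C (Γ i))).map cA := by
      rw [Polynomial.map_prod]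
      exact Finset.prod_congr rfl fun i _ => by simp [hγ]
    simp only [hxs, hs, ht]
    rw [h1, h2, map_zero, map_zero, mul_zero, add_zero, hξa, h3, Polynomial.coeff_map]
  have hγalg : ∀ i, IsAlgebraic K₀ (ψ (PowerSeries.C (γ i))) := by
    intro i
    set P : Polynomial S₁ := ∏ i, (Polynomial.X - Polynomial.C (ψ (PowerSeries.C (γ i)))) with hP
    have hPmap : P = (∏ i, (Polynomial.X - Polynomial.C (γ i))).map
        (ψ.comp PowerSeries.C) := by
      rw [Polynomial.map_prod]
      exact Finset.prod_congr rfl fun i _ => by simp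
    have hmon1 : (∏ i, (Polynomial.X - Polynomial.C (γ i))).Monic :=
      Polynomial.monic_prod_of_monic _ _ fun i _ => Polynomial.monic_X_sub_C _
    have hdeg1 : (∏ i, (Polynomial.X - Polynomial.C (γ i))).natDegree = d := by
      rw [Polynomial.natDegree_prod_of_monic _ _ fun i _ => Polynomial.monic_X_sub_C _]
      simp
    have hlift : P ∈ Polynomial.lifts (algebraMap K₀ S₁) := by
      rw [Polynomial.lifts_iff_coeff_lifts]
      intro n
      rw [hPmap, Polynomial.coeff_map]
      rcases lt_trichotomy n d with h | h | h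
      · have h1 := hxsj ⟨n, h⟩
        rw [RingHom.comp_apply, ← h1, ← hg0X]
        exact ⟨⟨_, hmem _⟩, rfl⟩
      · have h1 : (∏ i, (Polynomial.X - Polynomial.C (γ i))).coeff n = 1 := by
          have h2 := hmon1.coeff_natDegree
          rw [hdeg1] at h2
          rw [h]
          exact h2
        rw [h1, map_one]
        exact ⟨1, map_one _⟩
      · rw [Polynomial.coeff_eq_zero_of_natDegree_lt (by omega), map_zero]
        exact ⟨0, map_zero _⟩
    obtain ⟨P', hP'⟩ := (Polynomial.mem_lifts P).1 hlift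
    refine ⟨P', ?_, ?_⟩
    · rintro rfl
      rw [Polynomial.map_zero] at hP'
      have h1 : P.Monic := Polynomial.monic_prod_of_monic _ _ fun i _ => Polynomial.monic_X_sub_C _
      exact h1.ne_zero hP'.symm
    · rw [Polynomial.aeval_def, ← Polynomial.eval_map, hP', hP, Polynomial.eval_prod]
      exact Finset.prod_eq_zero (Finset.mem_univ i) (by simp)
  obtain ⟨hGalg, hWalg, hHalg⟩ := halg ψ hψ K₀ hTmem hγalg hfmem
  have hac : ∀ {y : S₁}, IsAlgebraic K₀ y → y ∈ algebraicClosure (FF E d m) S₁ := fun h =>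
    mem_algebraicClosure_iff.2 (alg_of_fieldRange h)
  set G' : Fin d → Mon (1 + p * d) → algebraicClosure (FF E d m) S₁ :=
    fun i q => ⟨ψ (G i q), hac (hGalg i q)⟩ with hG'
  set W' : Mon (r * (1 + p * d)) → algebraicClosure (FF E d m) S₁ :=
    fun q => ⟨ψ (W q), hac (hWalg q)⟩ with hW'
  set H' : Mon (d * (p * d)) → algebraicClosure (FF E d m) S₁ :=
    fun q => ⟨ψ (H q), hac (hHalg q)⟩ with hH'
  obtain ⟨M, hnM, hM, D, D', c, hDc⟩ := exists_cert (by omega) hT'0 hγinj hγ1 hf0 hG0 ψ hψ
    (algebraMap (algebraicClosure (FF E d m) S₁) S₁)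
    (fK := fun a => algebraMap (FF E d m) (algebraicClosure (FF E d m) S₁) (fgen w a)) (GK := G')
    (fun a => hfgen a) (fun i a => rfl)
  -- the automorphisms fix the field of constants
  have hfix : ∀ (σA : A ≃+* A) (σS : S₁ ≃+* S₁), (∀ l, σA (lA l) = lA l) →
      (∀ i, σA (s i) = s i) → (∀ i, σA (t i) = t i) →
      (∀ z, σS (ψ z) = ψ (PowerSeries.map (σA : A →+* A) z)) →
      (∀ P, PowerSeries.map (σA : A →+* A) (g0 P) = g0 P) ∧
      ∀ y : FF E d m, σS (algebraMap _ S₁ y) = algebraMap _ S₁ y := by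
    intro σA σS h1 h2 h3 h4
    have h5 : ∀ P, PowerSeries.map (σA : A →+* A) (g0 P) = g0 P := by
      intro P
      have h6 : (PowerSeries.map (σA : A →+* A)).comp g0 = g0 := by
        apply MvPolynomial.ringHom_ext
        · intro b
          rw [RingHom.comp_apply, hg0C, PowerSeries.map_C]
          congr 1
          exact h1 _
        · intro i
          rw [RingHom.comp_apply, hg0X]
          simp only [hxs]
          rw [map_add, map_mul, PowerSeries.map_C, PowerSeries.map_C, PowerSeries.map_X]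
          have h7 : (σA : A →+* A) (s i) = s i := h2 i
          have h8 : (σA : A →+* A) (t i) = t i := h3 i
          rw [h7, h8]
      exact DFunLike.congr_fun h6 P
    refine ⟨h5, fun y => ?_⟩
    have h6 : (σS : S₁ →+* S₁).comp (algebraMap (FF E d m) S₁) = algebraMap (FF E d m) S₁ := by
      apply ff_ext
      · intro b
        rw [RingHom.comp_apply, hmap]
        change σS _ = _
        rw [h4, h5]
      · intro i
        rw [RingHom.comp_apply, hmap]
        change σS _ = _
        rw [h4, h5]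
    exact DFunLike.congr_fun h6 y
  have hfg0 : ∀ q, f q = g0 (∑ e, X (q, e) * C (w e)) := by
    intro q
    rw [map_sum, hf]
    refine Finset.sum_congr rfl fun e _ => ?_
    rw [map_mul, hg0C, hg0X]
  obtain ⟨hτ1, hτ2⟩ := hfix τA τS hτl (fun i => hτc _) (fun i => hτc _) hτS
  have hτG := hequi τA 1 (hτl _) (fun i => hτc _) (fun q => by rw [hfg0, hτ1])
  refine ⟨S₁, iFS, iAlg, M, G', W', H', D, D', c, τS, Q, hnM, hScl, ?_, hM, hDc, hτ2, ?_, ?_, hQalg,
    ?_, ?_, ?_, ?_⟩
  · -- the identity
    apply MvPolynomial.map_injective (algebraMap (algebraicClosure (FF E d m) S₁) S₁)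
      (algebraMap (algebraicClosure (FF E d m) S₁) S₁).injective
    have h1 := congrArg (MvPolynomial.map ψ) hGW
    rw [map_prod, map_add, map_mul, map_mul, map_pow, map_C] at h1 ⊢
    simp only [map_pol] at h1 ⊢
    have h2 : algebraMap (algebraicClosure (FF E d m) S₁) S₁ (algebraMap (FF E d m)
        (algebraicClosure (FF E d m) S₁) (algebraMap (MvPolynomial (Idx d m) E) (FF E d m) (C T))) =
        ψ (PowerSeries.C T') := by
      rw [← hφT', ← hg0C]
      exact hmap _
    have h3 : (fun q => algebraMap (algebraicClosure (FF E d m) S₁) S₁ (algebraMap (FF E d m)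
        (algebraicClosure (FF E d m) S₁) (fgen w q))) = fun q => ψ (f q) := funext hfgen
    rw [h2, h3]
    exact h1
  · intro y
    rw [hmap, hg0C]
    have h1 : PowerSeries.C (φA (algebraMap κ E y)) =
        PowerSeries.map cA (PowerSeries.C (algebraMap κ κ₁ y)) := by
      rw [PowerSeries.map_C, ← hlc, hφA, RingHom.comp_apply, hφc]
    rw [h1]
    exact hQ _
  · intro i
    rw [hmap, hg0X]
    have h1 : xs i = PowerSeries.map cA (PowerSeries.C (ser0 (κ := κ) ξ i) +
        PowerSeries.X * PowerSeries.C (ser1 x i)) := by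
      rw [map_add, map_mul, PowerSeries.map_C, PowerSeries.map_C, PowerSeries.map_X]
    rw [h1]
    exact hQ _
  · intro i a
    change τS (ψ (G i a)) = ψ (G i a)
    rw [hτS, hτG.1]
    rfl
  · intro a
    change τS (ψ (W a)) = ψ (W a)
    rw [hτS, hτG.2.1]
  · intro α hα h
    rw [hmap, hg0C, hφT', ← hα₀, map_pow, map_pow] at hα
    have hα₀0 : α₀ ≠ 0 := by
      rintro rfl
      rw [zero_pow hp.ne_zero] at hα₀
      exact hT'0 hα₀.symm
    set β := ψ (PowerSeries.C α₀) with hβ
    have hβ0 : β ≠ 0 := by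
      rw [hβ]
      intro h1
      apply hα₀0
      have h2 := hψ (h1.trans (map_zero ψ).symm)
      exact PowerSeries.C_injective (h2.trans (map_zero _).symm)
    have hζ : (α / β) ^ p = 1 := by
      rw [div_pow, hα, div_self (pow_ne_zero _ hβ0)]
    have hζQ : τS (α / β) = α / β := by
      apply hQalg
      refine ⟨Polynomial.X ^ p - 1, ?_, ?_⟩
      · exact Polynomial.X_pow_sub_C_ne_zero hp.pos 1
      · rw [map_sub, map_pow, Polynomial.aeval_X, hζ, map_one, sub_self]
    have hζ0 : α / β ≠ 0 := by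
      intro h1
      rw [h1, zero_pow hp.ne_zero] at hζ
      exact zero_ne_one hζ
    have h1 : τS β = β := by
      have h2 : τS α = τS (α / β) * τS β := by
        rw [← map_mul, div_mul_cancel₀ _ hβ0]
      rw [hζQ, h] at h2
      have h3 : α / β * β = α / β * τS β := by
        rw [← h2, div_mul_cancel₀ _ hβ0]
      exact (mul_left_cancel₀ hζ0 h3).symm
    rw [hβ, hτS, PowerSeries.map_C] at h1
    exact hτα (PowerSeries.C_injective (hψ h1))
  · intro i j l hij hjl hil
    obtain ⟨ρ₁, hρκ, hρΓ, hρx⟩ := hperm (Equiv.swap i j)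
    obtain ⟨ρA, ρS, hρc, hρl, hρS, hcomm⟩ := hρ ρ₁ hρκ
    have hρξ : ∀ j, ρ₁ (ξ (idx0 m j)) = ξ (idx0 m j) := by
      intro j'
      rw [hξa]
      have h1 : (∏ i, (Polynomial.X - Polynomial.C (Γ i))).map (ρ₁ : κ₁ →+* κ₁) =
          ∏ i, (Polynomial.X - Polynomial.C (Γ i)) := by
        rw [Polynomial.map_prod]
        have h2 : ∀ i', (Polynomial.X - Polynomial.C (Γ i')).map (ρ₁ : κ₁ →+* κ₁) =
            Polynomial.X - Polynomial.C (Γ (Equiv.swap i j i')) := by
          intro i'
          rw [Polynomial.map_sub, Polynomial.map_X, Polynomial.map_C, ← hρΓ]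
          rfl
        simp only [h2]
        exact Equiv.prod_comp (Equiv.swap i j) fun i => (Polynomial.X - Polynomial.C (Γ i))
      conv_rhs => rw [← h1]
      rw [Polynomial.coeff_map]
      rfl
    have hρs : ∀ i, ρA (s i) = s i := by
      intro i'
      rw [hs]
      simp only
      rw [hρc]
      congr 1
      unfold ser0
      split_ifs with h
      · obtain ⟨j', rfl⟩ := h
        exact hρξ j'
      · exact hρκ _
    have hρt : ∀ i, ρA (t i) = t i := by
      intro i'
      rw [ht]
      simp only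
      rw [hρc]
      congr 1
      unfold ser1
      split_ifs with h
      · exact map_zero _
      · exact hρx _
    obtain ⟨h1, h2⟩ := hfix ρA ρS hρl hρs hρt hρS
    have h3 := hequi ρA (Equiv.swap i j) (hρl _) (fun i' => by
      rw [hγ]
      simp only
      rw [hρc, hρΓ]) (fun q => by rw [hfg0, h1])
    refine ⟨ρS, h2, ?_, ?_, hcomm⟩
    · intro a
      change ρS (ψ (G i a)) = ψ (G j a)
      rw [hρS, h3.1, Equiv.swap_apply_left]
    · intro a
      change ρS (ψ (G l a)) = ψ (G l a)
      rw [hρS, h3.1, Equiv.swap_apply_of_ne_of_ne hil.symm hjl.symm]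

end Pool.Agent.PC
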