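import Pool.Agent.Helper37.PC.Geo1a
import Pool.Agent.Helper37.PC.Hahn
import Pool.Agent.Helper37.PC.K1

/-!
# The generic member as a power series: independence
-/

universe u

namespace Pool.Agent.PC

open MvPolynomial

/-- the special values of the coefficients -/
noncomputable def spec0 (κ : Type u) [Field κ] {d m : ℕ} (i : Idx d m) : κ :=
  if (i.1.1.1 : ℕ) = 0 ∧ (i.1.1.2 : ℕ) = d ∧ i.2 = 0 then 1 else
  if (i.1.1.1 : ℕ) = d ∧ i.2 = 1 then -1 else 0

/-- the index of the coefficient of `y ^ j` -/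
def idx0 {d : ℕ} (m : ℕ) (j : Fin d) : Idx d m :=
  (⟨(0, j.castSucc), by simp⟩, 0)

lemma idx0_injective {d m : ℕ} : Function.Injective (idx0 m : Fin d → Idx d m) := by
  intro j j' h
  have h1 := congrArg (fun i : Idx d m => (i.1.1.2 : ℕ)) h
  exact Fin.ext h1

lemma mem_idx0 {d m : ℕ} {i : Idx d m} : (∃ j, idx0 m j = i) ↔
    (i.1.1.1 : ℕ) = 0 ∧ (i.1.1.2 : ℕ) < d ∧ i.2 = 0 := by
  constructor
  · rintro ⟨j, rfl⟩
    exact ⟨rfl, j.2, rfl⟩
  · rintro ⟨h1, h2, h3⟩
    refine ⟨⟨_, h2⟩, ?_⟩
    refine Prod.ext (Subtype.ext (Prod.ext (Fin.ext h1.symm) (Fin.ext rfl))) h3.symm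

/-- Independence of monomials over the Laurent series. -/
theorem sum_ne_zero_of_indep {κ κ₁ E A : Type u} [Field κ] [Field κ₁] [Algebra κ κ₁] [Field E]
    [Field A] {cA : κ₁ →+* A} {lA : HahnSeries ℤ κ →+* A}
    (hli : ∀ {I : Type} [Fintype I] (l : I → HahnSeries ℤ κ) (m : I → κ₁), LinearIndependent κ m →
        ∑ i, lA (l i) * cA (m i) = 0 → ∀ i, l i = 0) (φE : E →+* HahnSeries ℤ κ) {ι : Type}
    {ξ : ι → κ₁} (hξ : AlgebraicIndependent κ ξ) :
    Function.Injective (eval₂Hom (lA.comp φE) (fun i => cA (ξ i))) := by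
  classical
  rw [injective_iff_map_eq_zero]
  intro P hP
  have hLI : LinearIndependent κ fun s : ι →₀ ℕ => aeval ξ (monomial s (1 : κ)) := by
    have h1 := (basisMonomials ι κ).linearIndependent.map' (aeval ξ : MvPolynomial ι κ →ₐ[κ] κ₁).toLinearMap
      (LinearMap.ker_eq_bot.2 hξ)
    have h2 : (aeval ξ : MvPolynomial ι κ →ₐ[κ] κ₁).toLinearMap ∘ (basisMonomials ι κ) =
        fun s : ι →₀ ℕ => aeval ξ (monomial s (1 : κ)) := by
      funext s
      rw [Function.comp_apply, coe_basisMonomials]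
      rfl
    rwa [h2] at h1
  have h3 := hLI.comp (fun s : P.support => (s : ι →₀ ℕ)) Subtype.val_injective
  have h4 := hli (fun s : P.support => φE (P.coeff s)) _ h3 (by
    rw [← hP, coe_eval₂Hom, eval₂_eq, ← Finset.sum_coe_sort P.support]
    refine Finset.sum_congr rfl fun s _ => ?_
    rw [Function.comp_apply, aeval_monomial, map_one, one_mul, Finsupp.prod, map_prod]
    simp only [map_pow]
    rfl)
  ext s
  rw [coeff_zero]
  by_contra hs
  have h5 := h4 ⟨s, mem_support_iff.2 hs⟩
  exact hs ((map_eq_zero φE).1 h5)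

/-- The embedding in the power series is injective. -/
theorem inj_of_spec {A B : Type u} [Field A] [Field B] {ι : Type} (φ : B →+* A) (s t : ι → A)
    (h : Function.Injective (eval₂Hom φ fun i => s i + t i)) :
    Function.Injective (eval₂Hom ((PowerSeries.C).comp φ)
      (fun i => PowerSeries.C (s i) + PowerSeries.X * PowerSeries.C (t i)) :
        MvPolynomial ι B →+* PowerSeries A) := by
  rw [injective_iff_map_eq_zero]
  intro P hP
  let g2 : MvPolynomial ι B →+* Polynomial A := eval₂Hom ((Polynomial.C).comp φ)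
    (fun i => Polynomial.C (s i) + Polynomial.X * Polynomial.C (t i))
  have h1 : (Polynomial.coeToPowerSeries.ringHom.comp g2) = eval₂Hom ((PowerSeries.C).comp φ)
      (fun i => PowerSeries.C (s i) + PowerSeries.X * PowerSeries.C (t i)) := by
    apply MvPolynomial.ringHom_ext
    · intro b
      simp [g2]
    · intro i
      simp [g2]
      exact mul_comm _ _
  rw [← h1] at hP
  have h2 : g2 P = 0 := by
    apply Polynomial.coe_injective
    rw [Polynomial.coe_zero]
    exact hP
  have h3 : (Polynomial.evalRingHom 1).comp g2 = eval₂Hom φ fun i => s i + t i := by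
    apply MvPolynomial.ringHom_ext
    · intro b
      simp [g2]
    · intro i
      simp [g2]
  apply h
  rw [← h3, RingHom.comp_apply, h2, map_zero, RingHom.comp_apply, map_zero, map_zero]

end Pool.Agent.PC
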