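import Pool.Agent.Helper37.UL.Star1

/-!
# The final contradiction of project PLANE
-/

universe u

namespace Pool.Agent.PC

open Pool.Agent.Helper37.UL

lemma fix_closure {S : Type u} [Field S] (τ : S ≃+* S) {A : Set S} (h : ∀ y ∈ A, τ y = y) :
    ∀ y ∈ Subfield.closure A, τ y = y := by
  have h3 : Subfield.closure A ≤ (RingEquiv.toRingHom τ).eqLocusField (RingHom.id S) := by
    rw [Subfield.closure_le]
    intro y hy
    exact h y hy
  exact fun y hy => h3 hy

lemma map_closure_mem {S : Type u} [Field S] (τ : S ≃+* S) {A B : Set S}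
    (h : ∀ y ∈ A, τ y ∈ Subfield.closure B) :
    ∀ y ∈ Subfield.closure A, τ y ∈ Subfield.closure B := by
  have h3 : Subfield.closure A ≤ (Subfield.closure B).comap (τ : S →+* S) := by
    rw [Subfield.closure_le]
    intro y hy
    exact h y hy
  exact fun y hy => h3 hy

/-- **The final contradiction.**  `z i j = e i j * g i j` with `e i j` algebraic over `k0` and `g i j` in
the field generated by `Kg` and the coefficients of `G i`, `G j`; `τ` fixes the coefficients of the `G i`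
and of `W`, not `α`, and commutes with the transpositions. -/
theorem final_contra {S : Type u} [Field S] [IsAlgClosed S] [CharZero S]
    {k0 Kst Kg B₀ : Subfield S} (hk0B : k0 ≤ B₀) (hKK : Kst ≤ Kg) (hBK : B₀ ≤ Kg)
    (hrelB : ∀ x ∈ Kg, IsAlgebraic B₀ x → x ∈ B₀) {p : ℕ} (hp0 : p ≠ 0) {d : ℕ} (hd : 3 ≤ d)
    {I I' : Type} [Finite I] [Finite I'] {G : Fin d → I → S} {W : I' → S}
    (hG : ∀ i a, IsAlgebraic k0 (G i a)) (hW : ∀ a, IsAlgebraic k0 (W a))
    (hμ : ∀ ξ : S, ξ ^ p = 1 → ξ ∈ k0) {T : S} (hT : T ∈ k0)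
    (τ : S ≃+* S) (hτ : ∀ y ∈ B₀, τ y = y) (hτG : ∀ i a, τ (G i a) = G i a)
    (hτW : ∀ a, τ (W a) = W a) (hτα : ∀ α : S, α ^ p = T → τ α ≠ α)
    (hρ : ∀ i j l, i ≠ j → j ≠ l → i ≠ l → ∃ ρ : S ≃+* S, (∀ y ∈ k0, ρ y = y) ∧
      (∀ a, ρ (G i a) = G j a) ∧ (∀ a, ρ (G l a) = G l a) ∧
      ∀ y, IsAlgebraic k0 y → τ (ρ y) = ρ (τ y))
    (P : (S ≃+* S) → Prop) (hP : ∀ T', P T' → ∀ y ∈ Kg, T' y ∈ Kg)
    (hPint : ∀ ρ : S ≃+* S, (∀ y ∈ k0, ρ y = y) → ∀ (N : ℕ) (ψ : Fin N → S),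
      (∀ i, IsAlgebraic k0 (ψ i)) → ∃ T', P T' ∧ ∀ i, T' (ψ i) = ρ (ψ i))
    (z : Fin d → Fin d → S) (hz0 : ∀ i j, i ≠ j → z i j ≠ 0)
    (hz1 : ∀ i j, i ≠ j → z i j ^ p ∈
      Subfield.closure ((Kst : Set S) ∪ (Set.range (G i) ∪ Set.range (G j))))
    (hz2 : ∀ T', P T' → ∀ i j i' j', i ≠ j → i' ≠ j' → (∀ a, T' (G i a) = G i' a) →
      (∀ a, T' (G j a) = G j' a) → T' (z i j) / z i' j' ∈
      Subfield.closure ((Kst : Set S) ∪ (Set.range (G i') ∪ Set.range (G j'))))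
    (hz3 : ∀ i j l, i ≠ j → j ≠ l → i ≠ l → z i j * z j l / z i l ∈
      Subfield.closure ((Kst : Set S) ∪ (Set.range (G i) ∪ Set.range (G j) ∪ Set.range (G l))))
    {α : S} (hα : α ^ p = T) (hz4 : ∀ i, α / ∏ j ∈ Finset.univ.erase i, z j i ∈
      Subfield.closure ((Kst : Set S) ∪ ((⋃ j, Set.range (G j)) ∪ Set.range W)))
    (hfac : ∀ i j, i ≠ j → ∃ e g : S, IsAlgebraic k0 e ∧
      g ∈ Subfield.closure ((Kg : Set S) ∪ (Set.range (G i) ∪ Set.range (G j))) ∧
      z i j = e * g) : False := by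
  classical
  choose! e g he hg heg using hfac
  have he0 : ∀ i j, i ≠ j → e i j ≠ 0 := by
    intro i j hij h
    apply hz0 i j hij
    rw [heg i j hij, h, zero_mul]
  have hg0 : ∀ i j, i ≠ j → g i j ≠ 0 := by
    intro i j hij h
    apply hz0 i j hij
    rw [heg i j hij, h, mul_zero]
  -- lifts of `τ`
  have hat : ∀ (Ω : Type) [Finite Ω] (ψ : Ω → S), (∀ i, IsAlgebraic k0 (ψ i)) →
      ∃ τ' : S ≃+* S, (∀ y ∈ Kg, τ' y = y) ∧ (∀ i a, τ' (G i a) = G i a) ∧
        (∀ a, τ' (W a) = W a) ∧ ∀ i, τ' (ψ i) = τ (ψ i) := by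
    intro Ω _ ψ hψ
    obtain ⟨τ', hτ', hττ'⟩ := lift_conj (B := B₀) (K' := Kg) hBK hrelB
      (Sum.elim (fun q : Fin d × I => G q.1 q.2) (Sum.elim W ψ) : (Fin d × I) ⊕ (I' ⊕ Ω) → S)
      (by
        rintro (q | a | i)
        · exact isAlgebraic_mono hk0B (hG q.1 q.2)
        · exact isAlgebraic_mono hk0B (hW a)
        · exact isAlgebraic_mono hk0B (hψ i)) τ hτ
    refine ⟨τ', hτ', fun i a => ?_, fun a => ?_, fun i => hττ' (Sum.inr (Sum.inr i))⟩
    · exact (hττ' (Sum.inl (i, a))).trans (hτG i a)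
    · exact (hττ' (Sum.inr (Sum.inl a))).trans (hτW a)
  -- what is fixed
  have hfix : ∀ τ' : S ≃+* S, (∀ y ∈ Kg, τ' y = y) → (∀ i a, τ' (G i a) = G i a) →
      (∀ a, τ' (W a) = W a) → ∀ y ∈ Subfield.closure
        ((Kg : Set S) ∪ ((⋃ j, Set.range (G j)) ∪ Set.range W)), τ' y = y := by
    intro τ' h1 h2 h3
    apply fix_closure
    rintro y (hy | hy | ⟨a, rfl⟩)
    · exact h1 y hy
    · obtain ⟨j, a, rfl⟩ := Set.mem_iUnion.1 hy
      exact h2 j a
    · exact h3 a
  have hsub : ∀ {A : Set S}, A ⊆ (⋃ j, Set.range (G j)) ∪ Set.range W → ∀ {K : Subfield S}, K ≤ Kg →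
      Subfield.closure ((K : Set S) ∪ A) ≤
        Subfield.closure ((Kg : Set S) ∪ ((⋃ j, Set.range (G j)) ∪ Set.range W)) := by
    intro A hA K hK
    exact Subfield.closure_mono (Set.union_subset_union hK hA)
  have hr : ∀ i, Set.range (G i) ⊆ (⋃ j, Set.range (G j)) ∪ Set.range W := fun i =>
    (Set.subset_iUnion (fun j => Set.range (G j)) i).trans Set.subset_union_left
  set c : Fin d → Fin d → S := fun i j => τ (e i j) / e i j with hc
  have hce : ∀ i j, i ≠ j → τ (e i j) = c i j * e i j := fun i j hij => by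
    rw [hc]
    simp only
    rw [div_mul_cancel₀ _ (he0 i j hij)]
  -- the action of the lifts on `z`
  have hact : ∀ τ' : S ≃+* S, (∀ y ∈ Kg, τ' y = y) → (∀ i a, τ' (G i a) = G i a) →
      (∀ a, τ' (W a) = W a) → ∀ i j, i ≠ j → τ' (e i j) = τ (e i j) →
      τ' (z i j) = c i j * z i j := by
    intro τ' h1 h2 h3 i j hij h4
    rw [heg i j hij, map_mul, h4, hce i j hij,
      hfix τ' h1 h2 h3 _ (hsub (Set.union_subset (hr i) (hr j)) le_rfl (hg i j hij)), mul_assoc]
  have hcp : ∀ i j, i ≠ j → c i j ^ p = 1 := by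
    intro i j hij
    obtain ⟨τ', h1, h2, h3, h4⟩ := hat (Fin 1) (fun _ => e i j) (fun _ => he i j hij)
    have h5 := hact τ' h1 h2 h3 i j hij (h4 0)
    have h6 := hfix τ' h1 h2 h3 _ (hsub (Set.union_subset (hr i) (hr j)) hKK (hz1 i j hij))
    rw [map_pow, h5, mul_pow] at h6
    exact mul_right_cancel₀ (pow_ne_zero p (hz0 i j hij)) (h6.trans (one_mul _).symm)
  have hck : ∀ i j, i ≠ j → c i j ∈ k0 := fun i j hij => hμ _ (hcp i j hij)
  -- the cocycle relation
  have hcoc : ∀ i j l, i ≠ j → j ≠ l → i ≠ l → c i j * c j l = c i l := by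
    intro i j l hij hjl hil
    obtain ⟨τ', h1, h2, h3, h4⟩ := hat (Fin 3) ![e i j, e j l, e i l] (by
      intro s
      fin_cases s
      · exact he i j hij
      · exact he j l hjl
      · exact he i l hil)
    have ha := hact τ' h1 h2 h3 i j hij (h4 0)
    have hb := hact τ' h1 h2 h3 j l hjl (h4 1)
    have hc' := hact τ' h1 h2 h3 i l hil (h4 2)
    have h6 := hfix τ' h1 h2 h3 _ (hsub (Set.union_subset (Set.union_subset (hr i) (hr j)) (hr l))
      hKK (hz3 i j l hij hjl hil))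
    rw [map_div₀, map_mul, ha, hb, hc'] at h6
    have hzij := hz0 i j hij
    have hzjl := hz0 j l hjl
    have hzil := hz0 i l hil
    have hcil : c i l ≠ 0 := by
      intro h
      have h7 := hcp i l hil
      rw [h, zero_pow hp0] at h7
      exact zero_ne_one h7
    field_simp at h6
    exact h6
  -- the symmetry
  have hsym : ∀ i j l, i ≠ j → j ≠ l → i ≠ l → c i l = c j l := by
    intro i j l hij hjl hil
    obtain ⟨ρ, hρ0, hρi, hρl, hρc⟩ := hρ i j l hij hjl hil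
    -- an internal automorphism
    obtain ⟨N, ⟨eN⟩⟩ := Finite.exists_equiv_fin ((I ⊕ I) ⊕ Fin 1)
    have hψ : ∀ s, IsAlgebraic k0
        ((Sum.elim (Sum.elim (G i) (G l)) (fun _ : Fin 1 => e i l)) s) := by
      rintro ((a | a) | s)
      · exact hG i a
      · exact hG l a
      · exact he i l hil
    obtain ⟨T', hT', hT'ρ⟩ := hPint ρ hρ0 N
      (fun s => (Sum.elim (Sum.elim (G i) (G l)) (fun _ : Fin 1 => e i l)) (eN.symm s))
      (fun s => hψ _)
    have hT'1 : ∀ s, T' ((Sum.elim (Sum.elim (G i) (G l)) (fun _ : Fin 1 => e i l)) s) =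
        ρ ((Sum.elim (Sum.elim (G i) (G l)) (fun _ : Fin 1 => e i l)) s) := by
      intro s
      have h1 := hT'ρ (eN s)
      simp only [Equiv.symm_apply_apply] at h1
      exact h1
    have hTi : ∀ a, T' (G i a) = G j a := fun a => (hT'1 (Sum.inl (Sum.inl a))).trans (hρi a)
    have hTl : ∀ a, T' (G l a) = G l a := fun a => (hT'1 (Sum.inl (Sum.inr a))).trans (hρl a)
    have hTe : T' (e i l) = ρ (e i l) := hT'1 (Sum.inr 0)
    have hρe : IsAlgebraic k0 (ρ (e i l)) := by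
      obtain ⟨Q, hQ0, hQ⟩ := he i l hil
      exact ⟨Q, hQ0, by rw [← map_aeval hρ0, hQ, map_zero]⟩
    obtain ⟨τ', h1, h2, h3, h4⟩ := hat (Fin 2) ![ρ (e i l), e j l] (by
      intro s
      fin_cases s
      · exact hρe
      · exact he j l hjl)
    have h5 : τ' (ρ (e i l)) = τ (ρ (e i l)) := h4 0
    have h6 := hact τ' h1 h2 h3 j l hjl (h4 1)
    have h7 := hfix τ' h1 h2 h3 _ (hsub (Set.union_subset (hr j) (hr l)) hKK
      (hz2 T' hT' i l j l hil hjl hTi hTl))
    have hTg : T' (g i l) ∈ Subfield.closure ((Kg : Set S) ∪ (Set.range (G j) ∪ Set.range (G l))) := by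
      refine map_closure_mem T' ?_ _ (hg i l hil)
      rintro y (hy | ⟨a, rfl⟩ | ⟨a, rfl⟩)
      · exact Subfield.subset_closure (Or.inl (hP T' hT' y hy))
      · rw [hTi]
        exact Subfield.subset_closure (Or.inr (Or.inl ⟨a, rfl⟩))
      · rw [hTl]
        exact Subfield.subset_closure (Or.inr (Or.inr ⟨a, rfl⟩))
    have h8 : τ' (T' (g i l)) = T' (g i l) :=
      hfix τ' h1 h2 h3 _ (hsub (Set.union_subset (hr j) (hr l)) le_rfl hTg)
    have h9 : τ (ρ (e i l)) = c i l * ρ (e i l) := by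
      rw [hρc _ (he i l hil), hce i l hil, map_mul, hρ0 _ (hck i l hil)]
    have h10 : τ' (T' (z i l)) = c i l * T' (z i l) := by
      rw [heg i l hil, map_mul, map_mul, hTe, h5, h9, h8, mul_assoc]
    rw [map_div₀, h10, h6] at h7
    have h11 : T' (z i l) ≠ 0 := by
      intro h
      exact hz0 i l hil ((map_eq_zero T').1 h)
    have hcjl : c j l ≠ 0 := by
      intro h
      have h7 := hcp j l hjl
      rw [h, zero_pow hp0] at h7
      exact zero_ne_one h7
    have hzjl := hz0 j l hjl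
    field_simp at h7
    exact h7
  -- all `c` are one
  have hc1 : ∀ i j, i ≠ j → c i j = 1 := by
    intro i j hij
    obtain ⟨l, hl⟩ : ∃ l : Fin d, l ∉ ({i, j} : Finset (Fin d)) := by
      by_contra h
      push Not at h
      have h1 : (Finset.univ : Finset (Fin d)) ⊆ {i, j} := fun l _ => h l
      have h2 := Finset.card_le_card h1
      rw [Finset.card_univ, Fintype.card_fin] at h2
      have h3 := Finset.card_le_two (a := i) (b := j)
      omega
    rw [Finset.mem_insert, Finset.mem_singleton, not_or] at hl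
    have h1 := hcoc i j l hij (fun h => hl.2 h.symm) (fun h => hl.1 h.symm)
    rw [hsym i j l hij (fun h => hl.2 h.symm) (fun h => hl.1 h.symm)] at h1
    have hcjl : c j l ≠ 0 := by
      intro h
      have h7 := hcp j l (fun h => hl.2 h.symm)
      rw [h, zero_pow hp0] at h7
      exact zero_ne_one h7
    exact mul_right_cancel₀ hcjl (h1.trans (one_mul _).symm)
  -- the product relation
  have hαalg : IsAlgebraic k0 α := by
    apply IsAlgebraic.of_pow (Nat.pos_of_ne_zero hp0)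
    rw [hα]
    exact isAlgebraic_algebraMap (⟨T, hT⟩ : k0)
  obtain ⟨τ', h1, h2, h3, h4⟩ := hat (Option {q : Fin d × Fin d // q.1 ≠ q.2})
    (fun o => o.elim α fun q => e q.1.1 q.1.2) (by
      rintro (_ | q)
      · exact hαalg
      · exact he _ _ q.2)
  let i₀ : Fin d := ⟨0, by omega⟩
  have h5 := hfix τ' h1 h2 h3 _ (hsub le_rfl hKK (hz4 i₀))
  have h6 : τ' (∏ j ∈ Finset.univ.erase i₀, z j i₀) = ∏ j ∈ Finset.univ.erase i₀, z j i₀ := by
    rw [map_prod]
    refine Finset.prod_congr rfl fun j hj => ?_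
    have hj' : j ≠ i₀ := (Finset.mem_erase.1 hj).1
    rw [hact τ' h1 h2 h3 j i₀ hj' (h4 (some ⟨(j, i₀), hj'⟩)), hc1 j i₀ hj', one_mul]
  have h7 : τ' α = τ α := h4 none
  rw [map_div₀, h6, h7] at h5
  have h8 : ∏ j ∈ Finset.univ.erase i₀, z j i₀ ≠ 0 :=
    Finset.prod_ne_zero_iff.2 fun j hj => hz0 j i₀ (Finset.mem_erase.1 hj).1
  exact hτα α hα ((div_left_inj' h8).1 h5)

end Pool.Agent.PC
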