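import Pool.Agent.Helper37.PC.Basic

/-!
# The generic member of the linear system
-/

universe u v

namespace Pool.Agent.PC

open MvPolynomial

/-- the index set of the coefficients -/
abbrev Idx (d m : ℕ) : Type := Mon d × Fin (m + 2)

/-- the field `E(X)` -/
abbrev FF (E : Type u) [Field E] (d m : ℕ) : Type u := FractionRing (MvPolynomial (Idx d m) E)

/-- the generic member of the linear system -/
noncomputable def fgen {E : Type u} [Field E] {d m : ℕ} (w : Fin (m + 2) → E) (a : Mon d) :
    FF E d m :=
  algebraMap (MvPolynomial (Idx d m) E) (FF E d m) (∑ e, X (a, e) * C (w e))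

end Pool.Agent.PC
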