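import Pool.Agent.Helper37.PC.Gen
import Pool.Agent.Helper10.PL.Lin

/-!
# The special curve as a specialisation of the generic member
-/

universe u

namespace Pool.Agent.PC

open MvPolynomial

lemma totalDegree_f0_le {A : Type u} [Field A] {d : ℕ} (γ : Fin d → A) (T : A) :
    (f0 γ T).totalDegree ≤ d := by
  unfold f0
  refine (totalDegree_sub _ _).trans (max_le ?_ ?_)
  · refine (totalDegree_finset_prod _ _).trans ?_
    refine (Finset.sum_le_card_nsmul _ _ 1 fun j _ => ?_).trans (by simp)
    refine (totalDegree_sub _ _).trans (max_le (by simp) (by simp))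
  · refine (totalDegree_mul _ _).trans ?_
    rw [totalDegree_C, zero_add]
    exact (totalDegree_pow _ _).trans (by simp)

/-- the coefficients of `f0` -/
lemma coeff_f0 {A : Type u} [Field A] {d : ℕ} (γ : Fin d → A) (T : A) (q : Mon d) :
    (f0 γ T).coeff (mexp q) = (if (q.1.1 : ℕ) = 0 then
      (∏ j, (Polynomial.X - Polynomial.C (γ j))).coeff (q.1.2 : ℕ) else 0) -
      (if (q.1.1 : ℕ) = d then T else 0) := by
  classical
  have h1 : (∏ j, (X 1 - C (γ j)) : MvPolynomial (Fin 2) A) =
      Polynomial.aeval (X 1 : MvPolynomial (Fin 2) A) (∏ j, (Polynomial.X - Polynomial.C (γ j))) := by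
    rw [map_prod]
    refine Finset.prod_congr rfl fun j _ => ?_
    rw [map_sub, Polynomial.aeval_X, Polynomial.aeval_C]
    rfl
  have h2 : ∀ P : Polynomial A, (Polynomial.aeval (X 1 : MvPolynomial (Fin 2) A) P).coeff (mexp q) =
      if (q.1.1 : ℕ) = 0 then P.coeff (q.1.2 : ℕ) else 0 := by
    intro P
    rw [Polynomial.aeval_eq_sum_range, coeff_sum]
    have h3 : ∀ i, (P.coeff i • (X 1 : MvPolynomial (Fin 2) A) ^ i).coeff (mexp q) =
        if (q.1.1 : ℕ) = 0 ∧ (q.1.2 : ℕ) = i then P.coeff i else 0 := by
      intro i
      rw [smul_eq_C_mul, X_pow_eq_monomial, C_mul_monomial, mul_one, coeff_monomial]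
      congr 1
      apply propext
      constructor
      · intro h
        have h0 := DFunLike.congr_fun h 0
        have h1 := DFunLike.congr_fun h 1
        rw [mexp_zero] at h0
        rw [mexp_one] at h1
        simp at h0 h1
        exact ⟨h0.symm, h1.symm⟩
      · rintro ⟨h0, h1⟩
        ext j
        fin_cases j
        · change _ = mexp q 0
          rw [mexp_zero, h0]
          simp
        · change _ = mexp q 1
          rw [mexp_one, h1]
          simp
    simp only [h3]
    by_cases h0 : (q.1.1 : ℕ) = 0
    · simp only [h0, true_and, if_true]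
      rw [Finset.sum_ite_eq]
      split_ifs with h4
      · rfl
      · rw [Finset.mem_range, not_lt] at h4
        exact (Polynomial.coeff_eq_zero_of_natDegree_lt (by omega)).symm
    · simp only [h0, false_and, if_false, Finset.sum_const_zero]
  unfold f0
  rw [coeff_sub, h1, h2]
  congr 1
  rw [X_pow_eq_monomial, C_mul_monomial, mul_one, coeff_monomial]
  congr 1
  apply propext
  constructor
  · intro h
    have h0 := DFunLike.congr_fun h 0
    rw [mexp_zero] at h0
    simp at h0
    exact h0.symm
  · intro h0
    ext j
    have h5 := q.2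
    fin_cases j
    · change _ = mexp q 0
      rw [mexp_zero, h0]
      simp
    · change _ = mexp q 1
      rw [mexp_one]
      have h6 : (q.1.2 : ℕ) = 0 := by omega
      rw [h6]
      simp

end Pool.Agent.PC
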