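import Pool.Agent.Helper37.PC.Geo1b

/-!
# The generic member as a power series: the series
-/

universe u

namespace Pool.Agent.PC

open MvPolynomial

section

variable {κ κ₁ : Type u} [Field κ] [Field κ₁] [Algebra κ κ₁] {d m : ℕ}

/-- constant terms of the series of the coefficients -/
noncomputable def ser0 (ξ : Idx d m → κ₁) (i : Idx d m) : κ₁ :=
  open Classical in if ∃ j, idx0 m j = i then ξ i else algebraMap κ κ₁ (spec0 κ i)

/-- linear terms of the series of the coefficients -/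
noncomputable def ser1 (x : Idx d m → κ₁) (i : Idx d m) : κ₁ :=
  open Classical in if ∃ j, idx0 m j = i then 0 else x i

lemma ser_add {x ξ : Idx d m → κ₁}
    (hξb : ∀ i, (∀ j, idx0 m j ≠ i) → ξ i = algebraMap κ κ₁ (spec0 κ i) + x i) (i : Idx d m) :
    ser0 (κ := κ) ξ i + ser1 x i = ξ i := by
  unfold ser0 ser1
  by_cases h : ∃ j, idx0 m j = i
  · rw [if_pos h, if_pos h, add_zero]
  · rw [if_neg h, if_neg h]
    push Not at h
    exact (hξb i h).symm

lemma ser0_eq {Γ : Fin d → κ₁} {ξ : Idx d m → κ₁}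
    (hξa : ∀ j, ξ (idx0 m j) = (∏ i, (Polynomial.X - Polynomial.C (Γ i))).coeff (j : ℕ))
    (q : Mon d) (e : Fin (m + 2)) :
    ser0 (κ := κ) ξ (q, e) = if e = 0 then (if (q.1.1 : ℕ) = 0 then
      (∏ j, (Polynomial.X - Polynomial.C (Γ j))).coeff (q.1.2 : ℕ) else 0) else
      if e = 1 then (if (q.1.1 : ℕ) = d then -1 else 0) else 0 := by
  classical
  have hmon : (∏ j, (Polynomial.X - Polynomial.C (Γ j))).coeff d = 1 := by
    have h1 : (∏ j, (Polynomial.X - Polynomial.C (Γ j))).Monic :=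
      Polynomial.monic_prod_of_monic _ _ fun i _ => Polynomial.monic_X_sub_C _
    have h2 : (∏ j, (Polynomial.X - Polynomial.C (Γ j))).natDegree = d := by
      rw [Polynomial.natDegree_prod_of_monic _ _ fun i _ => Polynomial.monic_X_sub_C _]
      simp
    have h3 := h1.coeff_natDegree
    rwa [h2] at h3
  unfold ser0
  by_cases h : ∃ j, idx0 m j = (q, e)
  · obtain ⟨h1, h2, h3⟩ := mem_idx0.1 h
    obtain ⟨j, hj⟩ := h
    rw [if_pos ⟨j, hj⟩]
    have h3' : e = 0 := h3
    have h1' : (q.1.1 : ℕ) = 0 := h1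
    rw [if_pos h3', if_pos h1', ← hj, hξa]
    have h4 : ((idx0 m j).1.1.2 : ℕ) = (q.1.2 : ℕ) := by rw [hj]
    have h5 : ((idx0 m j).1.1.2 : ℕ) = (j : ℕ) := rfl
    rw [← h4, h5]
  · rw [if_neg h]
    have h' : ¬((q.1.1 : ℕ) = 0 ∧ (q.1.2 : ℕ) < d ∧ e = 0) := fun h1 => h (mem_idx0.2 h1)
    unfold spec0
    have hq := q.2
    by_cases he : e = 0
    · subst he
      rw [if_pos rfl]
      by_cases h1 : (q.1.1 : ℕ) = 0
      · have h2 : (q.1.2 : ℕ) = d := by
          have h3 : ¬ ((q.1.2 : ℕ) < d) := fun h4 => h' ⟨h1, h4, rfl⟩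
          omega
        rw [if_pos ⟨h1, h2, rfl⟩, if_pos h1, h2, hmon, map_one]
      · rw [if_neg (fun h2 => h1 h2.1), if_neg h1, if_neg, map_zero]
        rintro ⟨-, h2⟩
        have h3 := congrArg (fun e : Fin (m + 2) => (e : ℕ)) h2
        simp at h3
    · rw [if_neg (fun h2 => he h2.2.2), if_neg he]
      by_cases he1 : e = 1
      · rw [if_pos he1]
        by_cases h1 : (q.1.1 : ℕ) = d
        · rw [if_pos ⟨h1, he1⟩, if_pos h1, map_neg, map_one]
        · rw [if_neg (fun h2 => h1 h2.1), if_neg h1, map_zero]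
      · rw [if_neg (fun h2 => he1 h2.2), if_neg he1, map_zero]

/-- the constant term of the generic member -/
lemma sum_ser0 {A : Type u} [Field A] (cA : κ₁ →+* A) {Γ : Fin d → κ₁}
    {ξ : Idx d m → κ₁}
    (hξa : ∀ j, ξ (idx0 m j) = (∏ i, (Polynomial.X - Polynomial.C (Γ i))).coeff (j : ℕ))
    {v : Fin (m + 2) → A} (hv0 : v 0 = 1) (q : Mon d) :
    ∑ e, cA (ser0 (κ := κ) ξ (q, e)) * v e = (f0 (fun i => cA (Γ i)) (v 1)).coeff (mexp q) := by
  classical
  rw [coeff_f0]
  have h1 : ∀ e, cA (ser0 (κ := κ) ξ (q, e)) * v e = (if e = 0 then (if (q.1.1 : ℕ) = 0 then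
      (∏ j, (Polynomial.X - Polynomial.C (cA (Γ j)))).coeff (q.1.2 : ℕ) else 0) else 0) +
      (if e = 1 then (if (q.1.1 : ℕ) = d then -(v 1) else 0) else 0) := by
    intro e
    rw [ser0_eq hξa]
    have h2 : (∏ j, (Polynomial.X - Polynomial.C (cA (Γ j)))) =
        (∏ j, (Polynomial.X - Polynomial.C (Γ j))).map cA := by
      rw [Polynomial.map_prod]
      exact Finset.prod_congr rfl fun j _ => by simp
    have h01 : (0 : Fin (m + 2)) ≠ 1 := by
      intro h
      have h3 := congrArg (fun e : Fin (m + 2) => (e : ℕ)) h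
      simp at h3
    rw [h2, Polynomial.coeff_map]
    by_cases he : e = 0
    · subst he
      rw [if_pos rfl, if_pos rfl, if_neg h01, add_zero, hv0, mul_one]
      split_ifs
      · rfl
      · rw [map_zero]
    · rw [if_neg he, if_neg he, zero_add]
      by_cases he1 : e = 1
      · subst he1
        rw [if_pos rfl, if_pos rfl]
        split_ifs
        · rw [map_neg, map_one, neg_one_mul]
        · rw [map_zero, zero_mul]
      · rw [if_neg he1, if_neg he1, map_zero, zero_mul]
  simp only [h1]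
  rw [Finset.sum_add_distrib, Finset.sum_ite_eq', Finset.sum_ite_eq', if_pos (Finset.mem_univ _),
    if_pos (Finset.mem_univ _), sub_eq_add_neg]
  congr 1
  split_ifs
  · rfl
  · rw [neg_zero]

end

end Pool.Agent.PC
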