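import Pool.Agent.Helper37.PC.Basic

/-!
# Surjectivity is an open condition
-/

universe u v

namespace Pool.Agent.PC

open MvPolynomial

/-- the matrix of the coefficients of the polynomials `col (s w)` -/
noncomputable def dmat {R : Type u} [CommRing R] {M : ℕ} {I : Type} (col : I → MvPolynomial (Fin 2) R)
    (s : Mon M → I) : Matrix (Mon M) (Mon M) R :=
  Matrix.of fun v w => (col (s w)).coeff (mexp v)

lemma map_det_dmat {R : Type u} [CommRing R] {R' : Type v} [CommRing R'] (φ : R →+* R') {M : ℕ}
    {I : Type} (col : I → MvPolynomial (Fin 2) R) (s : Mon M → I) :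
    φ (dmat col s).det = (dmat (fun i => map φ (col i)) s).det := by
  rw [RingHom.map_det]
  congr 1

/-- a spanning family contains a basis -/
theorem exists_det_ne_zero {K : Type u} [Field K] {M : ℕ} {I : Type} [Fintype I]
    (col : I → MvPolynomial (Fin 2) K)
    (h : ∀ q : Mon M, ∃ c : I → K, mono K q = ∑ i, C (c i) * col i) :
    ∃ s : Mon M → I, (dmat col s).det ≠ 0 := by
  classical
  let v : I → (Mon M → K) := fun i q => (col i).coeff (mexp q)
  have hspan : ⊤ ≤ Submodule.span K (Set.range v) := by
    rw [← (Pi.basisFun K (Mon M)).span_eq, Submodule.span_le]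
    rintro _ ⟨q, rfl⟩
    obtain ⟨c, hc⟩ := h q
    have h1 : (Pi.basisFun K (Mon M)) q = ∑ i, c i • v i := by
      funext q'
      rw [Pi.basisFun_apply, Finset.sum_apply]
      have h2 := congrArg (fun P => P.coeff (mexp q')) hc
      simp only [mono_eq, coeff_monomial, coeff_sum, coeff_C_mul] at h2
      rw [Pi.single_apply]
      simp only [Pi.smul_apply, smul_eq_mul, v]
      rw [← h2]
      by_cases hq : q' = q
      · rw [if_pos hq, if_pos (by rw [hq])]
      · rw [if_neg hq, if_neg fun h => hq (mexp_injective h).symm]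
    change (Pi.basisFun K (Mon M)) q ∈ _
    rw [h1]
    exact Submodule.sum_mem _ fun i _ => Submodule.smul_mem _ _ (Submodule.subset_span ⟨i, rfl⟩)
  obtain ⟨κ, a, ha, hsp, hli⟩ := exists_linearIndependent' K v
  have hfin : Fintype κ := Fintype.ofInjective a ha
  let b : Module.Basis κ K (Mon M → K) := Module.Basis.mk hli (by rw [hsp]; exact hspan)
  have hcard : Fintype.card (Mon M) = Fintype.card κ := by
    have h1 := Module.finrank_eq_card_basis b
    rw [Module.finrank_fintype_fun_eq_card] at h1
    exact h1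
  let e : Mon M ≃ κ := Fintype.equivOfCardEq hcard
  refine ⟨fun w => a (e w), ?_⟩
  have h2 : LinearIndependent K fun w : Mon M => v (a (e w)) := hli.comp e e.injective
  have h3 : (dmat col fun w => a (e w)).transpose = Matrix.of fun w => v (a (e w)) := by
    ext w q
    rfl
  rw [← Matrix.det_transpose, h3]
  have h4 : IsUnit (Matrix.of fun w => v (a (e w))) :=
    Matrix.linearIndependent_rows_iff_isUnit.1 h2
  exact ((Matrix.isUnit_iff_isUnit_det _).1 h4).ne_zero

/-- a nonzero determinant gives all monomials -/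
theorem exists_coords {K : Type u} [Field K] {M : ℕ} {I : Type} [Fintype I]
    {col : I → MvPolynomial (Fin 2) K} (hdeg : ∀ i, (col i).totalDegree ≤ M) {s : Mon M → I}
    (hs : (dmat col s).det ≠ 0) (q : Mon M) :
    ∃ c : I → K, mono K q = ∑ i, C (c i) * col i := by
  classical
  let u : Mon M → K := (dmat col s)⁻¹.mulVec (Pi.single q 1)
  have h1 : (dmat col s).mulVec u = Pi.single q 1 := by
    simp only [u]
    rw [Matrix.mulVec_mulVec, Matrix.mul_nonsing_inv _ (isUnit_iff_ne_zero.2 hs),
      Matrix.one_mulVec]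
  refine ⟨fun i => ∑ w ∈ Finset.univ.filter (fun w => s w = i), u w, ?_⟩
  have h2 : ∑ i, C (∑ w ∈ Finset.univ.filter (fun w => s w = i), u w) * col i =
      ∑ w, C (u w) * col (s w) := by
    have h3 : ∀ i, C (∑ w ∈ Finset.univ.filter (fun w => s w = i), u w) * col i =
        ∑ w ∈ Finset.univ.filter (fun w => s w = i), C (u w) * col (s w) := by
      intro i
      rw [map_sum, Finset.sum_mul]
      refine Finset.sum_congr rfl fun w hw => ?_
      rw [(Finset.mem_filter.1 hw).2]
    simp only [h3]
    exact Finset.sum_fiberwise _ _ _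
  rw [h2]
  have hdeg2 : (∑ w, C (u w) * col (s w)).totalDegree ≤ M := by
    refine (totalDegree_finsetSum _ _).trans (Finset.sup_le fun w _ => ?_)
    refine (totalDegree_mul _ _).trans ?_
    rw [totalDegree_C, zero_add]
    exact hdeg _
  rw [← pol_coeff hdeg2]
  have h4 : mono K q = pol (Pi.single q 1 : Mon M → K) := by
    rw [pol_eq, Finset.sum_eq_single q]
    · rw [Pi.single_eq_same, mono_eq]
    · intro q' _ hq
      rw [Pi.single_eq_of_ne hq, monomial_zero]
    · intro hq
      exact absurd (Finset.mem_univ q) hq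
  rw [h4, ← h1]
  congr 1
  funext v
  rw [coeff_sum]
  simp only [coeff_C_mul, Matrix.mulVec, dotProduct, dmat, Matrix.of_apply]
  exact Finset.sum_congr rfl fun w _ => mul_comm _ _

/-- **Openness.**  `R` specialises to the field `A` and embeds in the field `L`. -/
theorem open_span {A : Type u} [Field A] {R : Type u} [CommRing R] (cst : R →+* A) {L : Type u}
    [Field L] (ψ : R →+* L) (hψ : Function.Injective ψ) {K : Type u} [Field K] (ι : K →+* L)
    {M : ℕ} {I : Type} [Fintype I] {colR : I → MvPolynomial (Fin 2) R}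
    {colK : I → MvPolynomial (Fin 2) K} (hcol : ∀ i, map ψ (colR i) = map ι (colK i))
    (hdeg : ∀ i, (colK i).totalDegree ≤ M)
    (h : ∀ q : Mon M, ∃ c : I → A, mono A q = ∑ i, C (c i) * map cst (colR i)) (q : Mon M) :
    ∃ c : I → K, mono K q = ∑ i, C (c i) * colK i := by
  obtain ⟨s, hs⟩ := exists_det_ne_zero _ h
  rw [← map_det_dmat] at hs
  have h1 : (dmat colR s).det ≠ 0 := fun h0 => hs (by rw [h0, map_zero])
  have h2 : ψ (dmat colR s).det ≠ 0 := (map_ne_zero_iff ψ hψ).2 h1
  rw [map_det_dmat] at h2
  simp only [hcol] at h2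
  rw [← map_det_dmat] at h2
  exact exists_coords hdeg (fun h0 => h2 (by rw [h0, map_zero])) q

end Pool.Agent.PC
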