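import Pool.Agent.Helper10.PL.Lin
import Pool.Agent.Helper37.PC.Basic
import Pool.Agent.Helper37.PC.Open

/-!
# Stubs of project PLANE: certificates (helper45)
-/

universe u v w

namespace Pool.Agent.PC

open MvPolynomial

/-- CERT: the certificates at the special curve propagate (`open_span`).  `K ⊆ L ⊇ A⟦ε⟧`. -/
theorem exists_cert_stub {A : Type u} [Field A] [CharZero A] {d p r : ℕ} (hp : p.Prime)
    (hd : d = p * r) (hd3 : 3 ≤ d) {T : A} (hT : T ≠ 0) {γ : Fin d → A}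
    (hγ : Function.Injective γ) (hγ1 : ∀ i j, γ i ≠ γ j + 1) {f : Mon d → PowerSeries A}
    (hf : pol (fun q => PowerSeries.constantCoeff (f q)) = f0 γ T)
    {G : Fin d → Mon (1 + p * d) → PowerSeries A}
    (hG : ∀ i, pol (fun q => PowerSeries.constantCoeff (G i q)) = G0 p d (γ i))
    {L K : Type u} [Field L] [Field K] (ψ : PowerSeries A →+* L) (hψ : Function.Injective ψ)
    (ι : K →+* L) {fK : Mon d → K} {GK : Fin d → Mon (1 + p * d) → K}
    (hfK : ∀ a, ι (fK a) = ψ (f a)) (hGK : ∀ i a, ι (GK i a) = ψ (G i a)) :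
    ∃ M : ℕ, 1 + p * d ≤ M ∧ (∀ i j, i ≠ j → Cop (GK i) (GK j) fK M) ∧
      ∃ (D D' : Fin d → Mon M → K) (c : Fin d → Fin (M + 1) → K), ∀ i, c i ≠ 0 ∧
        pol (D i) * pol (GK i) + pol (D' i) * pol fK = polX (c i) := by
  sorry

/-- DISC: the branch locus of the projection to the line.  `f` has coefficients in `k0` and
`∑ f (0, j) y ^ j` is separable of degree `d`; then `A f + B ∂f/∂y = R(x) ^ e`, `R` separable. -/
theorem exists_disc_stub {S : Type u} [Field S] [CharZero S] {k0 : Subfield S} {d : ℕ} (hd : 2 ≤ d)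
    {f : Mon d → S} (hf : ∀ a, f a ∈ k0)
    (hdeg : f ⟨(0, Fin.last d), by simp⟩ ≠ 0)
    (hsep : (∑ j : Fin (d + 1), Polynomial.C (f ⟨(0, j), by
      simpa using Nat.lt_succ_iff.1 j.2⟩) * Polynomial.X ^ (j : ℕ)).Separable) :
    ∃ (M N e : ℕ) (R U V : Fin (M + 1) → S) (A B : Mon N → S), 1 ≤ M ∧ R (Fin.last M) ≠ 0 ∧
      (∀ i, R i ∈ k0) ∧ (∀ i, U i ∈ k0) ∧ (∀ i, V i ∈ k0) ∧ (∀ a, A a ∈ k0) ∧ (∀ a, B a ∈ k0) ∧
      polX U * polX R + polX V * pderiv 0 (polX R) = 1 ∧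
      pol A * pol f + pol B * pderiv 1 (pol f) = polX R ^ e := by
  sorry

end Pool.Agent.PC
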