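import Pool.Agent.Helper37.PC.Gen
import Pool.Agent.Helper37.PC.Ext

/-!
# Stub of project PLANE: GEO over the explicit field `S₁` (helper37); GEO follows by transport
-/

universe u v

namespace Pool.Agent.PC

open MvPolynomial

/-- **GEO1.** -/
theorem geo1_stub {κ E : Type u} [Field κ] [IsAlgClosed κ] [CharZero κ] [Field E] [Algebra κ E]
    (φE : E →+* HahnSeries ℤ κ) (hφc : ∀ c : κ, φE (algebraMap κ E c) = HahnSeries.C c) {T : E}
    (hφT : φE T = HahnSeries.single 1 1) {d p r m : ℕ} (hp : p.Prime) (hd : d = p * r)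
    (hd3 : 3 ≤ d) {w : Fin (m + 2) → E} (hw0 : w 0 = 1) (hw1 : w 1 = T) :
    ∃ (S₁ : Type u) (_ : Field S₁) (_ : Algebra (FF E d m) S₁) (M : ℕ)
      (G : Fin d → Mon (1 + p * d) → algebraicClosure (FF E d m) S₁)
      (W : Mon (r * (1 + p * d)) → algebraicClosure (FF E d m) S₁)
      (H : Mon (d * (p * d)) → algebraicClosure (FF E d m) S₁)
      (D D' : Fin d → Mon M → algebraicClosure (FF E d m) S₁)
      (c : Fin d → Fin (M + 1) → algebraicClosure (FF E d m) S₁) (τ : S₁ ≃+* S₁)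
      (Q : Subfield S₁),
      1 + p * d ≤ M ∧ IsAlgClosed S₁ ∧
      -- the identities
      ∏ i, pol (G i) = C (algebraMap (FF E d m) (algebraicClosure (FF E d m) S₁)
        (algebraMap (MvPolynomial (Idx d m) E) (FF E d m) (C T))) * pol W ^ p +
        pol H * pol (fun a => algebraMap (FF E d m) (algebraicClosure (FF E d m) S₁) (fgen w a)) ∧
      (∀ i j, i ≠ j → Cop (G i) (G j)
        (fun a => algebraMap (FF E d m) (algebraicClosure (FF E d m) S₁) (fgen w a)) M) ∧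
      (∀ i, c i ≠ 0 ∧ pol (D i) * pol (G i) + pol (D' i) *
        pol (fun a => algebraMap (FF E d m) (algebraicClosure (FF E d m) S₁) (fgen w a)) =
          polX (c i)) ∧
      -- the automorphism `τ`
      (∀ y : FF E d m, τ (algebraMap _ S₁ y) = algebraMap _ S₁ y) ∧
      (∀ y : κ, algebraMap (FF E d m) S₁ (algebraMap (MvPolynomial (Idx d m) E) (FF E d m)
        (C (algebraMap κ E y))) ∈ Q) ∧
      (∀ i : Idx d m, algebraMap (FF E d m) S₁ (algebraMap (MvPolynomial (Idx d m) E) (FF E d m)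
        (X i)) ∈ Q) ∧
      (∀ y, IsAlgebraic Q y → τ y = y) ∧
      (∀ i a, τ (G i a : S₁) = G i a) ∧ (∀ a, τ (W a : S₁) = W a) ∧
      (∀ α : S₁, α ^ p = algebraMap (FF E d m) S₁
        (algebraMap (MvPolynomial (Idx d m) E) (FF E d m) (C T)) → τ α ≠ α) ∧
      -- the transpositions
      ∀ i j l, i ≠ j → j ≠ l → i ≠ l → ∃ ρ : S₁ ≃+* S₁,
        (∀ y : FF E d m, ρ (algebraMap _ S₁ y) = algebraMap _ S₁ y) ∧
        (∀ a, ρ (G i a : S₁) = G j a) ∧ (∀ a, ρ (G l a : S₁) = G l a) ∧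
        ∀ y, τ (ρ y) = ρ (τ y) := by
  sorry

end Pool.Agent.PC
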