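import Pool.Agent.Helper37.PC.Defs

/-!
# Stubs of project PLANE, blocks L1, L2, L3, SOL (helper10)
-/

universe u v

namespace Pool.Agent.PC

open MvPolynomial

/-- the special curve `∏ (y - γ j) = T x ^ d` -/
noncomputable def f0 {A : Type u} [CommRing A] {d : ℕ} (γ : Fin d → A) (T : A) :
    MvPolynomial (Fin 2) A :=
  ∏ j, (X 1 - C (γ j)) - C T * X 0 ^ d

/-- `(y - γ) (y - γ - 1) ^ (p m)` -/
noncomputable def G0 {A : Type u} [CommRing A] (p m : ℕ) (γ : A) : MvPolynomial (Fin 2) A :=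
  (X 1 - C γ) * (X 1 - C γ - 1) ^ (p * m)

/-- `x ^ r ∏ (y - γ j - 1) ^ m` -/
noncomputable def W0 {A : Type u} [CommRing A] {d : ℕ} (r m : ℕ) (γ : Fin d → A) :
    MvPolynomial (Fin 2) A :=
  X 0 ^ r * ∏ j, (X 1 - C (γ j) - 1) ^ m

/-- L1: the linearised map is surjective. -/
theorem surj_lin_stub {A : Type u} [Field A] [CharZero A] {d p r m : ℕ} (hp : p.Prime)
    (hd : d = p * r) (hd0 : 0 < d) (hm : d ≤ m) {T : A} (hT : T ≠ 0) {γ : Fin d → A}
    (hγ : Function.Injective γ) (hγ1 : ∀ i j, γ i ≠ γ j + 1) (F : MvPolynomial (Fin 2) A)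
    (hF : F.totalDegree ≤ d * (1 + p * m)) :
    ∃ (g : Fin d → MvPolynomial (Fin 2) A) (u h : MvPolynomial (Fin 2) A),
      (∀ i, (g i).totalDegree ≤ 1 + p * m) ∧ u.totalDegree ≤ r * (1 + p * m) ∧
      h.totalDegree ≤ d * (p * m) ∧
      F = ∑ i, g i * ∏ j ∈ Finset.univ.erase i, G0 p m (γ j) -
        (p : MvPolynomial (Fin 2) A) * C T * u * W0 r m γ ^ (p - 1) - h * f0 γ T := by
  sorry

/-- L2: the implicit function theorem (Hensel) over power series. -/
theorem mv_hensel_stub {A : Type u} [Field A] {B : Type v} [Fintype B] [DecidableEq B]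
    (Φ : B → MvPolynomial B (PowerSeries A)) (z0 : B → A)
    (h0 : ∀ i, PowerSeries.constantCoeff
      (eval (fun b => PowerSeries.C (z0 b)) (Φ i)) = 0)
    (hJ : (Matrix.of fun i j => PowerSeries.constantCoeff
      (eval (fun b => PowerSeries.C (z0 b)) (pderiv j (Φ i)))).det ≠ 0) :
    ∃ z : B → PowerSeries A, (∀ b, PowerSeries.constantCoeff (z b) = z0 b) ∧
      (∀ i, eval z (Φ i) = 0) ∧
      (∀ z' : B → PowerSeries A, (∀ b, PowerSeries.constantCoeff (z' b) = z0 b) →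
        (∀ i, eval z' (Φ i) = 0) → z' = z) ∧
      (Matrix.of fun i j => eval z (pderiv j (Φ i))).det ≠ 0 := by
  sorry

/-- L3: solutions with invertible Jacobian are algebraic. -/
theorem alg_of_jac_stub {K : Type u} {L : Type v} [Field K] [CharZero K] [Field L] [Algebra K L]
    {B : Type} [Fintype B] [DecidableEq B] (Φ : B → MvPolynomial B K) (z : B → L)
    (h : ∀ i, aeval z (Φ i) = 0)
    (hJ : (Matrix.of fun i j => aeval z (pderiv j (Φ i))).det ≠ 0) :
    ∀ b, IsAlgebraic K (z b) := by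
  sorry

/-- SOL: the deformation of the special solution, its equivariance and its algebraicity. -/
theorem exists_sol_stub {A : Type u} [Field A] [CharZero A] {d p r m : ℕ} (hp : p.Prime)
    (hd : d = p * r) (hd0 : 0 < d) (hm : d ≤ m) {T : A} (hT : T ≠ 0) {γ : Fin d → A}
    (hγ : Function.Injective γ) (hγ1 : ∀ i j, γ i ≠ γ j + 1) (f : Mon d → PowerSeries A)
    (hf : pol (fun q => PowerSeries.constantCoeff (f q)) = f0 γ T) :
    ∃ (G : Fin d → Mon (1 + p * m) → PowerSeries A) (W : Mon (r * (1 + p * m)) → PowerSeries A)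
      (H : Mon (d * (p * m)) → PowerSeries A),
      ∏ i, pol (G i) = C (PowerSeries.C T) * pol W ^ p + pol H * pol f ∧
      (∀ i, pol (fun q => PowerSeries.constantCoeff (G i q)) = G0 p m (γ i)) ∧
      (∀ (ρ : A ≃+* A) (e : Equiv.Perm (Fin d)), ρ T = T → (∀ i, ρ (γ i) = γ (e i)) →
        (∀ q, PowerSeries.map (ρ : A →+* A) (f q) = f q) →
        (∀ i q, PowerSeries.map (ρ : A →+* A) (G i q) = G (e i) q) ∧
        (∀ q, PowerSeries.map (ρ : A →+* A) (W q) = W q) ∧
        (∀ q, PowerSeries.map (ρ : A →+* A) (H q) = H q)) ∧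
      ∀ {L : Type u} [Field L] (φ : PowerSeries A →+* L), Function.Injective φ →
        ∀ K : Subfield L, φ (PowerSeries.C T) ∈ K →
        (∀ i, IsAlgebraic K (φ (PowerSeries.C (γ i)))) → (∀ q, φ (f q) ∈ K) →
        (∀ i q, IsAlgebraic K (φ (G i q))) ∧ (∀ q, IsAlgebraic K (φ (W q))) ∧
        (∀ q, IsAlgebraic K (φ (H q))) := by
  sorry

end Pool.Agent.PC
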