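import Pool.Agent.Helper37.PC.Defs
import Pool.Agent.Helper37.UL.Germ5
import Pool.Agent.Helper37.UL.Star1
import Pool.Agent.Helper13.TD.DR

/-!
# Stubs of project PLANE: ultrapower lemmas (helper77)
-/

universe u v w

namespace Pool.Agent.PC

open Pool.Agent.Helper37.UL Pool.Agent.TD

variable {J : Type v} {U : Ultrafilter J} {C : Type u} [Field C] {S : Type w} [Field S]
  {π : (J → C) →+* S}

/-- UP1: an automorphism over `k0` agrees with an internal automorphism on finitely many algebraic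
elements.  (Primitive element `β` of `k0(ψ)`; the orbit `O` of `β` under the internal automorphisms is
finite; `∏_{r ∈ O} (X - r)` has coefficients in `gsub k` by `mem_of_internal`; `root_minpoly`.) -/
theorem exists_internal_stub [IsAlgClosed C] [CharZero C] (h : UP U π) {k : Subfield C}
    (hC : ∀ x : C, IsAlgebraic k x) {k0 : Subfield S} (hk0 : k0 ≤ h.gsub k)
    (hrel : ∀ x ∈ h.gsub k, IsAlgebraic k0 x → x ∈ k0) (ρ : S ≃+* S) (hρ : ∀ y ∈ k0, ρ y = y)
    {N : ℕ} {ψ : Fin N → S} (hψ : ∀ i, IsAlgebraic k0 (ψ i)) :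
    ∃ T' : S ≃+* S, UP.Internal π k T' ∧ ∀ i, T' (ψ i) = ρ (ψ i) := by
  sorry

/-- UP2: elements of `k(v a)` for almost all `a`, the `v` being algebraic. -/
theorem mem_closure_stub [IsAlgClosed C] [CharZero C] (h : UP U π) {k : Subfield C}
    (hC : ∀ x : C, IsAlgebraic k x) {I : Type} [Finite I] {v : J → I → C}
    (hv : ∀ i, IsAlgebraic (h.gsub k) (π fun a => v a i)) {y : J → C}
    (hy : ∀ᶠ a in (U : Filter J), y a ∈ Subfield.closure ((k : Set C) ∪ Set.range (v a))) :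
    π y ∈ Subfield.closure ((h.gsub k : Set S) ∪ Set.range fun i => π fun a => v a i) := by
  sorry

/-- UP3: relations of bounded degree and a polynomial of bad values. -/
theorem exists_bad_stub [IsAlgClosed C] [CharZero C] (h : UP U π) {κ : Subfield C}
    (hκ : ∀ x : C, IsAlgebraic κ x → x ∈ κ) {T : C} (hT : Transcendental κ T)
    {κ0 : Subfield S} (hκ0 : κ0 ≤ h.gsub κ) {I : Type} [Finite I] {g : J → I → C}
    (hg : ∀ i, IsAlgebraic (Subfield.closure ((κ0 : Set S) ∪ {UP.cst π T})) (π fun a => g a i)) :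
    ∃ (M D m' : ℕ) (b' : Fin (M + 1) → S) (b : J → Fin (M + 1) → C), 0 < D ∧
      (∀ l, b' l ∈ κ0) ∧ (∃ l, b' l ≠ 0) ∧ (∀ l, (π fun a => b a l) = b' l) ∧
      ∀ᶠ a in (U : Filter J), (∀ l, b a l ∈ κ) ∧ (∃ l, b a l ≠ 0) ∧
        (∀ V : ValuationSubring C, (∀ c ∈ κ, c ∈ V) → ∀ t₀ ∈ κ, V.valuation (T - t₀) < 1 →
          ∑ l, b a l * t₀ ^ (l : ℕ) ≠ 0 → ∀ i, g a i ∈ V) ∧
        ∀ i, ∃ c : Fin (D + 1) → Fin (m' + 1) → C, (∀ l j, c l j ∈ κ) ∧ c (Fin.last D) ≠ 0 ∧
          ∑ l, (∑ j, c l j * T ^ (j : ℕ)) * g a i ^ (l : ℕ) = 0 := by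
  sorry

/-- UP4: transfer of bounded data, almost everywhere. -/
theorem up_data_ev_stub (h : UP U π) {κ Kg : Subfield C} {t : C} {D d p B m r : ℕ}
    {c : J → Fin (d + 1) → Fin (m + 1) → C} {v : J → Fin r → C} {w : J → C}
    (hl : ∀ᶠ a in (U : Filter J), DataR κ Kg t D d p B (c a) (v a) (w a)) :
    DataR (h.gsub κ) (h.gsub Kg) (UP.cst π t) D d p B (fun i l => π fun a => c a i l)
      (fun j => π fun a => v a j) (π w) := by
  sorry

/-- UP5: polynomial identities (Los). -/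
theorem los_pol_stub (h : UP U π) (P : MvPolynomial (Fin 2) (J → C))
    (hP : MvPolynomial.map π P = 0) :
    ∀ᶠ a in (U : Filter J), MvPolynomial.map (Pi.evalRingHom (fun _ => C) a) P = 0 := by
  sorry

end Pool.Agent.PC
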